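import Mathlib

/-!
# Project TD (MP_770f2c_al): linear maps lowering the dual eigenspace flag of a tridiagonal pair

Definitions and the exact statements `S_...` of the pieces.  Proofs: `NOTES.md` in this folder.
-/

set_option linter.unusedVariables false

namespace Pool.Agent.R639.TD

open Module Polynomial

section Defs

variable {K V : Type} [Field K] [AddCommGroup V] [Module K V]

/-- the sum of the eigenspaces of `A` for the eigenvalues `th i`, `i ∈ S` -/
def ES (A : Module.End K V) (th : ℕ → K) (S : Finset ℕ) : Submodule K V :=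
  ⨆ i ∈ S, A.eigenspace (th i)

/-- the indices `j ≤ d` with `|i - j| ≤ 1` -/
def nb (d i : ℕ) : Finset ℕ := (Finset.range (d + 1)).filter fun j => j ≤ i + 1 ∧ i ≤ j + 1

/-- `A, B` (`B` plays the role of `A^*`) is a tridiagonal pair of diameter `d`, with the orderings
`th 0, ..., th d` of the eigenvalues of `A` and `ts 0, ..., ts d` of the eigenvalues of `B`. -/
structure IsTD (A B : Module.End K V) (d : ℕ) (th ts : ℕ → K) : Prop where
  injA : ∀ i j, i ≤ d → j ≤ d → th i = th j → i = j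
  injB : ∀ i j, i ≤ d → j ≤ d → ts i = ts j → i = j
  neA : ∀ i, i ≤ d → A.eigenspace (th i) ≠ ⊥
  neB : ∀ i, i ≤ d → B.eigenspace (ts i) ≠ ⊥
  topA : ES A th (Finset.range (d + 1)) = ⊤
  topB : ES B ts (Finset.range (d + 1)) = ⊤
  triA : ∀ i, i ≤ d → ∀ v ∈ B.eigenspace (ts i), A v ∈ ES B ts (nb d i)
  triB : ∀ i, i ≤ d → ∀ v ∈ A.eigenspace (th i), B v ∈ ES A th (nb d i)
  irr : ∀ W : Submodule K V, (∀ w ∈ W, A w ∈ W) → (∀ w ∈ W, B w ∈ W) → W = ⊥ ∨ W = ⊤

/-- the space of linear maps of the problem -/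
def XX (A B : Module.End K V) (d : ℕ) (th ts : ℕ → K) : Submodule K (Module.End K V) where
  carrier := {X | (∀ i, i ≤ d → ∀ v ∈ B.eigenspace (ts i), X v ∈ ES B ts (Finset.range i)) ∧
    ∀ i, i ≤ d → ∀ v ∈ A.eigenspace (th i), X v ∈ ES A th (nb d i)}
  add_mem' := fun {X Y} hX hY => ⟨fun i hi v hv => by
      rw [LinearMap.add_apply]; exact Submodule.add_mem _ (hX.1 i hi v hv) (hY.1 i hi v hv),
    fun i hi v hv => by
      rw [LinearMap.add_apply]; exact Submodule.add_mem _ (hX.2 i hi v hv) (hY.2 i hi v hv)⟩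
  zero_mem' := ⟨fun i hi v hv => by rw [LinearMap.zero_apply]; exact Submodule.zero_mem _,
    fun i hi v hv => by rw [LinearMap.zero_apply]; exact Submodule.zero_mem _⟩
  smul_mem' := fun c X hX => ⟨fun i hi v hv => by
      rw [LinearMap.smul_apply]; exact Submodule.smul_mem _ _ (hX.1 i hi v hv),
    fun i hi v hv => by
      rw [LinearMap.smul_apply]; exact Submodule.smul_mem _ _ (hX.2 i hi v hv)⟩

/-- `U_i = (V^*_0 + ... + V^*_i) ∩ (V_i + ... + V_d)` -/
def UU (A B : Module.End K V) (d : ℕ) (th ts : ℕ → K) (i : ℕ) : Submodule K V :=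
  ES B ts (Finset.Icc 0 i) ⊓ ES A th (Finset.Icc i d)

/-- `K_j = (V^*_0 + ... + V^*_j) ∩ (V_j + ... + V_{d-j})` (used for `2 * j ≤ d`) -/
def KK (A B : Module.End K V) (d : ℕ) (th ts : ℕ → K) (j : ℕ) : Submodule K V :=
  ES B ts (Finset.Icc 0 j) ⊓ ES A th (Finset.Icc j (d - j))

/-- the projection onto the eigenspace of `A` for `th s` -/
noncomputable def pr (A : Module.End K V) (d : ℕ) (th : ℕ → K) (s : ℕ) : Module.End K V :=
  aeval A (Lagrange.basis (Finset.range (d + 1)) th s)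

/-- the polynomial `(x - th i) ... (x - th (j-1))` evaluated at `A` -/
noncomputable def tau (A : Module.End K V) (th : ℕ → K) (i j : ℕ) : Module.End K V :=
  aeval A (∏ h ∈ Finset.Ico i j, (X - C (th h)))

end Defs

/-! ## scalars -/

section Scalars

variable {K : Type} [Field K]

/-- `∏ (th r - th h)` over `h ≠ r` in `[j, d-j]` -/
def om (th : ℕ → K) (d j r : ℕ) : K := ∏ h ∈ (Finset.Icc j (d - j)).erase r, (th r - th h)

/-- the coefficient of `p (th s)` in the second divided difference of `p` at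
`th (r-1), th r, th (r+1)` (for `1 ≤ r`) -/
def cP (th : ℕ → K) (r s : ℕ) : K :=
  if s ≤ r + 1 ∧ r ≤ s + 1 then ∏ t ∈ (Finset.Icc (r - 1) (r + 1)).erase s, (th s - th t)⁻¹ else 0

def kap (th : ℕ → K) (d j : ℕ) : K := (th (j + 1) - th (d - j - 1)) / (th j - th (d - j))

def del (th : ℕ → K) (d j : ℕ) : K := th (j + 1) - kap th d j * th j

/-- the weight of the left difference quotient -/
def uu (th : ℕ → K) (d j r : ℕ) : K :=
  if r = j then 0 else if r = d - j then 1 else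
    (th (r + 1) - (kap th d j * th r + del th d j)) / (th (r + 1) - th (r - 1))

/-- coefficients of the first order operator on the grid `[j, d-j]` -/
def c0 (th : ℕ → K) (d j r s : ℕ) : K :=
  if s + 1 = r then uu th d j r / (th (r - 1) - th r)
  else if s = r + 1 then (1 - uu th d j r) / (th (r + 1) - th r)
  else if s = r then - (uu th d j r / (th (r - 1) - th r))
    - (1 - uu th d j r) / (th (r + 1) - th r)
  else 0

/-- coefficients of the adjoint of the second divided difference: from the grid `[j+1, d-j-1]` to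
the grid `[j, d-j]` -/
def cM (th : ℕ → K) (d j r s : ℕ) : K := om th d j r * cP th s r / om th d (j + 1) s

/-- normalised solutions for `(l,j) = (j+1,j)` -/
def Z1 (th : ℕ → K) (d j r s : ℕ) : K := cP th r s / om th d (j + 1) r

/-- normalised solutions for `(l,j) = (j,j)` -/
def Z0 (th : ℕ → K) (d j r s : ℕ) : K := c0 th d j r s / om th d j r

/-- the recurrence of the eigenvalues of a tridiagonal pair -/
def Rec (th : ℕ → K) (d : ℕ) : Prop := ∃ be ga rh : K, ∀ i, 1 ≤ i → i ≤ d →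
  th (i - 1) ^ 2 - be * th (i - 1) * th i + th i ^ 2 - ga * (th (i - 1) + th i) = rh

/-- the degree conditions for an array `z r s`, `r ∈ [l, d-l]`, `s ∈ [j, d-j]`, with values in a
vector space -/
def Deg {H : Type} [AddCommGroup H] [Module K H] (th : ℕ → K) (d l j : ℕ) (z : ℕ → ℕ → H) : Prop :=
  (∀ r s, (r + 1 < s ∨ s + 1 < r) → z r s = 0) ∧
  ∀ e n, e + n + j + l ≤ d →
    ∑ r ∈ Finset.Icc l (d - l), ∑ s ∈ Finset.Icc j (d - j), (th r ^ e * th s ^ n) • z r s = 0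

end Scalars

/-! ## statements of the pieces on scalars -/

/-- DZ: no solutions for `|l - j| ≥ 2` and for `l = j`, `2 * j = d`. -/
def S_DZ : Prop := ∀ (K : Type) [Field K] (th : ℕ → K) (d : ℕ),
  (∀ i j, i ≤ d → j ≤ d → th i = th j → i = j) →
  ∀ l j : ℕ, 2 * l ≤ d → 2 * j ≤ d → (l + 2 ≤ j ∨ j + 2 ≤ l ∨ (l = j ∧ 2 * j = d)) →
  ∀ z : ℕ → ℕ → K, Deg th d l j z →
    ∀ r ∈ Finset.Icc l (d - l), ∀ s ∈ Finset.Icc j (d - j), z r s = 0

/-- D1U: for `l = j + 1` every solution is a multiple of `Z1`. -/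
def S_D1U : Prop := ∀ (K : Type) [Field K] (th : ℕ → K) (d : ℕ),
  (∀ i j, i ≤ d → j ≤ d → th i = th j → i = j) →
  ∀ j : ℕ, 2 * j + 2 ≤ d → ∀ z : ℕ → ℕ → K, Deg th d (j + 1) j z →
    ∃ c : K, ∀ r ∈ Finset.Icc (j + 1) (d - (j + 1)), ∀ s ∈ Finset.Icc j (d - j),
      z r s = Z1 th d j r s * c

/-- D1E: `Z1` is a solution. -/
def S_D1E : Prop := ∀ (K : Type) [Field K] (th : ℕ → K) (d : ℕ),
  (∀ i j, i ≤ d → j ≤ d → th i = th j → i = j) → Rec th d →
  ∀ j : ℕ, 2 * j + 2 ≤ d → ∀ e n, e + n + j + (j + 1) ≤ d →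
    ∑ r ∈ Finset.Icc (j + 1) (d - (j + 1)), ∑ s ∈ Finset.Icc j (d - j),
      (th r ^ e * th s ^ n) * Z1 th d j r s = 0

/-- D0U: for `l = j`, `2 * j < d`, every solution is a multiple of `Z0`. -/
def S_D0U : Prop := ∀ (K : Type) [Field K] (th : ℕ → K) (d : ℕ),
  (∀ i j, i ≤ d → j ≤ d → th i = th j → i = j) →
  ∀ j : ℕ, 2 * j < d → ∀ z : ℕ → ℕ → K, Deg th d j j z →
    ∃ c : K, ∀ r ∈ Finset.Icc j (d - j), ∀ s ∈ Finset.Icc j (d - j),
      z r s = Z0 th d j r s * c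

/-- D0E: `Z0` is a solution. -/
def S_D0E : Prop := ∀ (K : Type) [Field K] (th : ℕ → K) (d : ℕ),
  (∀ i j, i ≤ d → j ≤ d → th i = th j → i = j) → Rec th d →
  ∀ j : ℕ, 2 * j < d → ∀ e n, e + n + j + j ≤ d →
    ∑ r ∈ Finset.Icc j (d - j), ∑ s ∈ Finset.Icc j (d - j),
      (th r ^ e * th s ^ n) * Z0 th d j r s = 0

/-- DVEC: from scalar valued to vector valued solutions. -/
def S_DVEC : Prop := ∀ (K : Type) [Field K] (H : Type) [AddCommGroup H] [Module K H]
  (I J : Finset ℕ) (Z : ℕ → ℕ → K) (z : ℕ → ℕ → H),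
  (∀ f : Module.Dual K H, ∃ c : K, ∀ r ∈ I, ∀ s ∈ J, f (z r s) = Z r s * c) →
    ∃ h : H, ∀ r ∈ I, ∀ s ∈ J, z r s = Z r s • h

/-- DNZ: the scalars are not identically zero. -/
def S_DNZ : Prop := ∀ (K : Type) [Field K] (th : ℕ → K) (d : ℕ),
  (∀ i j, i ≤ d → j ≤ d → th i = th j → i = j) →
  (∀ j : ℕ, 2 * j + 2 ≤ d → Z1 th d j (j + 1) j ≠ 0) ∧
  (∀ j : ℕ, 2 * j < d → Z0 th d j j (j + 1) ≠ 0) ∧
  (∀ j r : ℕ, r ∈ Finset.Icc j (d - j) → om th d j r ≠ 0)

/-! ## statements of the pieces on tridiagonal pairs -/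

/-- REV: reversing the ordering of the eigenvalues of `A`. -/
def S_REV : Prop := ∀ (K V : Type) [Field K] [AddCommGroup V] [Module K V]
  (A B : Module.End K V) (d : ℕ) (th ts : ℕ → K), IsTD A B d th ts →
    IsTD A B d (fun i => th (d - i)) ts ∧
    ∀ a b, a ≤ b → b ≤ d → ES A (fun i => th (d - i)) (Finset.Icc (d - b) (d - a)) =
      ES A th (Finset.Icc a b)

/-- VAN: vanishing of intersections of the flags. -/
def S_VAN : Prop := ∀ (K V : Type) [Field K] [AddCommGroup V] [Module K V]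
  (A B : Module.End K V) (d : ℕ) (th ts : ℕ → K), IsTD A B d th ts →
    (∀ i j, i < j → ES B ts (Finset.Icc 0 i) ⊓ ES A th (Finset.Icc j d) = ⊥) ∧
    ∀ i j, i < j → j ≤ d → ES B ts (Finset.Icc 0 i) ⊓ ES A th (Finset.Icc 0 (d - j)) = ⊥

/-- PROJ: basic properties of the projections `pr`. -/
def S_PROJ : Prop := ∀ (K V : Type) [Field K] [AddCommGroup V] [Module K V]
  (A B : Module.End K V) (d : ℕ) (th ts : ℕ → K), IsTD A B d th ts →
    (∀ v, ∑ s ∈ Finset.range (d + 1), pr A d th s v = v) ∧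
    (∀ s, s ≤ d → ∀ v, pr A d th s v ∈ A.eigenspace (th s)) ∧
    (∀ s, s ≤ d → ∀ v ∈ A.eigenspace (th s), pr A d th s v = v) ∧
    (∀ s t, s ≤ d → t ≤ d → s ≠ t → ∀ v ∈ A.eigenspace (th t), pr A d th s v = 0) ∧
    (∀ S : Finset ℕ, S ⊆ Finset.range (d + 1) → ∀ v,
      (v ∈ ES A th S ↔ ∀ s, s ≤ d → s ∉ S → pr A d th s v = 0)) ∧
    (∀ (p : K[X]) v, aeval A p v = ∑ s ∈ Finset.range (d + 1), p.eval (th s) • pr A d th s v) ∧
    (∀ i j v, j ≤ d + 1 → (tau A th i j v = 0 ↔ v ∈ ES A th (Finset.Ico i j)))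

/-- SPLIT: the split decomposition. -/
def S_SPLIT : Prop := ∀ (K V : Type) [Field K] [AddCommGroup V] [Module K V]
  (A B : Module.End K V) (d : ℕ) (th ts : ℕ → K), IsTD A B d th ts →
    (∀ i, i ≤ d → ES B ts (Finset.Icc 0 i) = ⨆ h ∈ Finset.Icc 0 i, UU A B d th ts h) ∧
    (∀ i, i ≤ d → ES A th (Finset.Icc i d) = ⨆ h ∈ Finset.Icc i d, UU A B d th ts h) ∧
    (∀ w : ℕ → V, (∀ i, i ≤ d → w i ∈ UU A B d th ts i) →
      ∑ i ∈ Finset.range (d + 1), w i = 0 → ∀ i, i ≤ d → w i = 0) ∧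
    (∀ i v, v ∈ UU A B d th ts i → i < d → A v - th i • v ∈ UU A B d th ts (i + 1)) ∧
    (∀ v, v ∈ UU A B d th ts d → A v = th d • v)

/-- DIM: dimensions. -/
def S_DIM : Prop := ∀ (K V : Type) [Field K] [AddCommGroup V] [Module K V]
  [FiniteDimensional K V] (A B : Module.End K V) (d : ℕ) (th ts : ℕ → K), IsTD A B d th ts →
    ∀ i, i ≤ d → finrank K (UU A B d th ts i) = finrank K (B.eigenspace (ts i)) ∧
      finrank K (A.eigenspace (th i)) = finrank K (B.eigenspace (ts i)) ∧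
      finrank K (A.eigenspace (th (d - i))) = finrank K (A.eigenspace (th i))

/-- INJ: raising maps between the `U_i`. -/
def S_INJ : Prop := ∀ (K V : Type) [Field K] [AddCommGroup V] [Module K V]
  [FiniteDimensional K V] (A B : Module.End K V) (d : ℕ) (th ts : ℕ → K), IsTD A B d th ts →
    (∀ i j, i ≤ j → j ≤ d → ∀ v ∈ UU A B d th ts i, tau A th i j v ∈ UU A B d th ts j) ∧
    (∀ i j, i ≤ j → i + j ≤ d → ∀ v ∈ UU A B d th ts i, tau A th i j v = 0 → v = 0) ∧
    (∀ i, 2 * i ≤ d → ∀ u ∈ UU A B d th ts (d - i), ∃ v ∈ UU A B d th ts i,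
      tau A th i (d - i) v = u)

/-- DEC: the decomposition of the `U_i` through the `K_j`. -/
def S_DEC : Prop := ∀ (K V : Type) [Field K] [AddCommGroup V] [Module K V]
  [FiniteDimensional K V] (A B : Module.End K V) (d : ℕ) (th ts : ℕ → K), IsTD A B d th ts →
    (∀ i, i ≤ d → ∀ u ∈ UU A B d th ts i, ∃ w : ℕ → V,
      (∀ j, j ≤ i → j ≤ d - i → w j ∈ KK A B d th ts j) ∧
      u = ∑ j ∈ Finset.range (min i (d - i) + 1), tau A th j i (w j)) ∧
    (∀ i, i ≤ d → ∀ w : ℕ → V, (∀ j, j ≤ i → j ≤ d - i → w j ∈ KK A B d th ts j) →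
      ∑ j ∈ Finset.range (min i (d - i) + 1), tau A th j i (w j) = 0 →
      ∀ j, j ≤ i → j ≤ d - i → w j = 0)

/-- DECV: the decomposition of `V` through the spaces `pr r (K_l)`. -/
def S_DECV : Prop := ∀ (K V : Type) [Field K] [AddCommGroup V] [Module K V]
  [FiniteDimensional K V] (A B : Module.End K V) (d : ℕ) (th ts : ℕ → K), IsTD A B d th ts →
    (∀ v : V, ∃ g : ℕ → ℕ → V, (∀ l r, 2 * l ≤ d → g l r ∈ KK A B d th ts l) ∧
      v = ∑ l ∈ Finset.range (d / 2 + 1), ∑ r ∈ Finset.Icc l (d - l), pr A d th r (g l r)) ∧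
    (∀ g : ℕ → ℕ → V, (∀ l r, 2 * l ≤ d → g l r ∈ KK A B d th ts l) →
      ∑ l ∈ Finset.range (d / 2 + 1), ∑ r ∈ Finset.Icc l (d - l), pr A d th r (g l r) = 0 →
      ∀ l r, 2 * l ≤ d → r ∈ Finset.Icc l (d - l) → g l r = 0)

/-- ORTH: interpolation: a function on the grid `[l, d-l]` with values in a vector space that is
orthogonal to the polynomials of degree at most `d-l-i` is a polynomial of degree less than `i-l`,
and conversely. -/
def S_ORTH : Prop := ∀ (K : Type) [Field K] (H : Type) [AddCommGroup H] [Module K H]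
  (th : ℕ → K) (d : ℕ), (∀ i j, i ≤ d → j ≤ d → th i = th j → i = j) →
  ∀ (l i : ℕ), 2 * l ≤ d → ∀ g : ℕ → H,
    ((∀ e, e + i + l ≤ d → ∑ r ∈ Finset.Icc l (d - l), (th r ^ e / om th d l r) • g r = 0) ↔
      ∃ w : ℕ → H, ∀ r ∈ Finset.Icc l (d - l),
        g r = ∑ n ∈ Finset.range (min (i - l) (d - 2 * l + 1)), th r ^ n • w n)

/-- FILT: the flag of `B` in terms of the decomposition `DECV`. -/
def S_FILT : Prop := ∀ (K V : Type) [Field K] [AddCommGroup V] [Module K V]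
  [FiniteDimensional K V] (A B : Module.End K V) (d : ℕ) (th ts : ℕ → K), IsTD A B d th ts →
    ∀ g : ℕ → ℕ → V, (∀ l r, 2 * l ≤ d → g l r ∈ KK A B d th ts l) → ∀ i, i ≤ d + 1 →
      ((∑ l ∈ Finset.range (d / 2 + 1), ∑ r ∈ Finset.Icc l (d - l), pr A d th r (g l r))
          ∈ ES B ts (Finset.range i) ↔
        ∀ l, 2 * l ≤ d → ∀ e, e + i + l ≤ d →
          ∑ r ∈ Finset.Icc l (d - l), (th r ^ e / om th d l r) • g l r = 0)

/-- REC: the recurrence of the eigenvalues. -/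
def S_REC : Prop := ∀ (K V : Type) [Field K] [AddCommGroup V] [Module K V]
  [FiniteDimensional K V] (A B : Module.End K V) (d : ℕ) (th ts : ℕ → K), IsTD A B d th ts →
    Rec th d

end Pool.Agent.R639.TD
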