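import Pool.Agent.R639.TD.Defs

/-!
# TD-D0E: existence of the first order operator
-/

set_option linter.unusedVariables false

namespace Pool.Agent.R639.TD

open Module Polynomial

namespace D0E

variable {K : Type} [Field K]

/-- The pairing with a polynomial of small degree vanishes. -/
theorem pairing (th : ℕ → K) (d j : ℕ) (hinj : ∀ a b, a ≤ d → b ≤ d → th a = th b → a = b)
    (hj : 2 * j < d) (f : K[X]) (hf : f.natDegree < d - 2 * j) :
    ∑ r ∈ Finset.Icc j (d - j), f.eval (th r) / om th d j r = 0 := by
  have hcard : (Finset.Icc j (d - j)).card = (d - 2 * j) + 1 := by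
    rw [Nat.card_Icc]
    omega
  have hvs : Set.InjOn th (Finset.Icc j (d - j) : Set ℕ) := by
    intro a ha b hb h
    rw [Finset.coe_Icc, Set.mem_Icc] at ha hb
    exact hinj a b (by omega) (by omega) h
  have hdeg : f.degree < ((d - 2 * j : ℕ) : WithBot ℕ) :=
    lt_of_le_of_lt degree_le_natDegree (by exact_mod_cast hf)
  have h1 := Lagrange.coeff_eq_sum hvs (P := f) (by
    rw [hcard]
    exact hdeg.trans (by exact_mod_cast Nat.lt_succ_self _))
  rw [hcard, Nat.add_sub_cancel, Polynomial.coeff_eq_zero_of_degree_lt hdeg] at h1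
  exact h1.symm

/-- `q i r` -/
def qq (th : ℕ → K) (d j i r : ℕ) : K :=
  uu th d j r * th (r - 1) ^ i + (1 - uu th d j r) * th (r + 1) ^ i

section

variable {th : ℕ → K} {d j : ℕ} (hinj : ∀ a b, a ≤ d → b ≤ d → th a = th b → a = b)
  (hj : 2 * j < d)

include hinj hj

/-- The two facts on the coefficients. -/
theorem facts {r : ℕ} (hr : r ∈ Finset.Icc j (d - j)) :
    ∑ s ∈ Finset.Icc j (d - j), c0 th d j r s = 0 ∧
    ∀ φ : ℕ → K, ∑ s ∈ Finset.Icc j (d - j), (th s - th r) * φ s * c0 th d j r s =
      uu th d j r * φ (r - 1) + (1 - uu th d j r) * φ (r + 1) := by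
  rw [Finset.mem_Icc] at hr
  have hne : ∀ a b, a ≤ d → b ≤ d → a ≠ b → th a - th b ≠ 0 := by
    intro a b ha hb hab h
    exact hab (hinj a b ha hb (sub_eq_zero.1 h))
  rcases eq_or_ne r j with h1 | h1
  · -- the left end
    subst h1
    have hu : uu th d r r = 0 := by unfold uu; rw [if_pos rfl]
    have h2 := hne (r + 1) r (by omega) (by omega) (by omega)
    have hc1 : c0 th d r r (r + 1) = 1 / (th (r + 1) - th r) := by
      unfold c0
      rw [if_neg (by omega), if_pos rfl, hu, sub_zero]
    have hc2 : c0 th d r r r = - (1 / (th (r + 1) - th r)) := by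
      unfold c0
      rw [if_neg (by omega), if_neg (by omega), if_pos rfl, hu]
      ring
    have hsum : ∀ ψ : ℕ → K, ∑ s ∈ Finset.Icc r (d - r), ψ s * c0 th d r r s =
        ψ r * c0 th d r r r + ψ (r + 1) * c0 th d r r (r + 1) := by
      intro ψ
      rw [← Finset.sum_pair (f := fun s => ψ s * c0 th d r r s) (show r ≠ r + 1 by omega)]
      symm
      apply Finset.sum_subset
      · intro s hs
        rw [Finset.mem_insert, Finset.mem_singleton] at hs
        rw [Finset.mem_Icc]
        omega
      · intro s hs hs'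
        rw [Finset.mem_Icc] at hs
        rw [Finset.mem_insert, Finset.mem_singleton] at hs'
        unfold c0
        rw [if_neg (by omega), if_neg (by omega), if_neg (by omega), mul_zero]
    constructor
    · have h3 := hsum fun _ => 1
      simp only [one_mul] at h3
      rw [h3, hc1, hc2]
      ring
    · intro φ
      rw [hsum (fun s => (th s - th r) * φ s), hc1, hc2, hu]
      field_simp
      ring
  rcases eq_or_ne r (d - j) with h2 | h2
  · -- the right end
    have hu : uu th d j r = 1 := by unfold uu; rw [if_neg h1, if_pos h2]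
    have h3 := hne (r - 1) r (by omega) (by omega) (by omega)
    have hc1 : c0 th d j r (r - 1) = 1 / (th (r - 1) - th r) := by
      unfold c0
      rw [if_pos (by omega), hu]
    have hc2 : c0 th d j r r = - (1 / (th (r - 1) - th r)) := by
      unfold c0
      rw [if_neg (by omega), if_neg (by omega), if_pos rfl, hu]
      ring
    have hsum : ∀ ψ : ℕ → K, ∑ s ∈ Finset.Icc j (d - j), ψ s * c0 th d j r s =
        ψ r * c0 th d j r r + ψ (r - 1) * c0 th d j r (r - 1) := by
      intro ψ
      rw [← Finset.sum_pair (f := fun s => ψ s * c0 th d j r s) (show r ≠ r - 1 by omega)]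
      symm
      apply Finset.sum_subset
      · intro s hs
        rw [Finset.mem_insert, Finset.mem_singleton] at hs
        rw [Finset.mem_Icc]
        omega
      · intro s hs hs'
        rw [Finset.mem_Icc] at hs
        rw [Finset.mem_insert, Finset.mem_singleton] at hs'
        unfold c0
        rw [if_neg (by omega), if_neg (by omega), if_neg (by omega), mul_zero]
    constructor
    · have h4 := hsum fun _ => 1
      simp only [one_mul] at h4
      rw [h4, hc1, hc2]
      ring
    · intro φ
      rw [hsum (fun s => (th s - th r) * φ s), hc1, hc2, hu]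
      field_simp
      ring
  · -- the interior
    have h3 := hne (r - 1) r (by omega) (by omega) (by omega)
    have h4 := hne (r + 1) r (by omega) (by omega) (by omega)
    have hc1 : c0 th d j r (r - 1) = uu th d j r / (th (r - 1) - th r) := by
      unfold c0
      rw [if_pos (by omega)]
    have hc3 : c0 th d j r (r + 1) = (1 - uu th d j r) / (th (r + 1) - th r) := by
      unfold c0
      rw [if_neg (by omega), if_pos rfl]
    have hc2 : c0 th d j r r = - (uu th d j r / (th (r - 1) - th r))
        - (1 - uu th d j r) / (th (r + 1) - th r) := by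
      unfold c0
      rw [if_neg (by omega), if_neg (by omega), if_pos rfl]
    have hsum : ∀ ψ : ℕ → K, ∑ s ∈ Finset.Icc j (d - j), ψ s * c0 th d j r s =
        ψ r * c0 th d j r r + (ψ (r - 1) * c0 th d j r (r - 1) +
          ψ (r + 1) * c0 th d j r (r + 1)) := by
      intro ψ
      have h5 : ∑ s ∈ ({r, r - 1, r + 1} : Finset ℕ), ψ s * c0 th d j r s =
          ψ r * c0 th d j r r + (ψ (r - 1) * c0 th d j r (r - 1) +
          ψ (r + 1) * c0 th d j r (r + 1)) := by
        rw [Finset.sum_insert (by
          rw [Finset.mem_insert, Finset.mem_singleton]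
          omega), Finset.sum_pair (by omega)]
      rw [← h5]
      symm
      apply Finset.sum_subset
      · intro s hs
        rw [Finset.mem_insert, Finset.mem_insert, Finset.mem_singleton] at hs
        rw [Finset.mem_Icc]
        omega
      · intro s hs hs'
        rw [Finset.mem_Icc] at hs
        rw [Finset.mem_insert, Finset.mem_insert, Finset.mem_singleton] at hs'
        unfold c0
        rw [if_neg (by omega), if_neg (by omega), if_neg (by omega), mul_zero]
    constructor
    · have h5 := hsum fun _ => 1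
      simp only [one_mul] at h5
      rw [h5, hc1, hc2, hc3]
      ring
    · intro φ
      rw [hsum (fun s => (th s - th r) * φ s), hc1, hc2, hc3]
      field_simp
      ring

theorem q_zero (r : ℕ) : qq th d j 0 r = 1 := by
  unfold qq
  rw [pow_zero, pow_zero]
  ring

theorem q_one {r : ℕ} (hr : r ∈ Finset.Icc j (d - j)) :
    qq th d j 1 r = kap th d j * th r + del th d j := by
  rw [Finset.mem_Icc] at hr
  have hne : ∀ a b, a ≤ d → b ≤ d → a ≠ b → th a - th b ≠ 0 := by
    intro a b ha hb hab h
    exact hab (hinj a b ha hb (sub_eq_zero.1 h))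
  unfold qq
  rw [pow_one, pow_one]
  rcases eq_or_ne r j with h1 | h1
  · subst h1
    have hu : uu th d r r = 0 := by unfold uu; rw [if_pos rfl]
    rw [hu]
    unfold del
    ring
  rcases eq_or_ne r (d - j) with h2 | h2
  · have hu : uu th d j r = 1 := by unfold uu; rw [if_neg h1, if_pos h2]
    have h3 := hne j (d - j) (by omega) (by omega) (by omega)
    have hk : kap th d j * (th j - th (d - j)) = th (j + 1) - th (d - j - 1) := by
      unfold kap
      field_simp
    rw [hu, h2]
    unfold del
    linear_combination hk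
  · have hu : uu th d j r * (th (r + 1) - th (r - 1)) =
        th (r + 1) - (kap th d j * th r + del th d j) := by
      have h3 := hne (r + 1) (r - 1) (by omega) (by omega) (by omega)
      unfold uu
      rw [if_neg h1, if_neg h2]
      field_simp
    linear_combination (-1 : K) * hu

theorem q_rec {be ga rh : K} (hrec : ∀ i, 1 ≤ i → i ≤ d →
    th (i - 1) ^ 2 - be * th (i - 1) * th i + th i ^ 2 - ga * (th (i - 1) + th i) = rh)
    {r : ℕ} (hr : r ∈ Finset.Icc j (d - j)) (i : ℕ) :
    qq th d j (i + 2) r = (be * th r + ga) * qq th d j (i + 1) r -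
      (th r ^ 2 - ga * th r - rh) * qq th d j i r := by
  rw [Finset.mem_Icc] at hr
  have hL : uu th d j r * th (r - 1) ^ 2 = uu th d j r * ((be * th r + ga) * th (r - 1) -
      (th r ^ 2 - ga * th r - rh)) := by
    rcases eq_or_ne r j with h1 | h1
    · subst h1
      have hu : uu th d r r = 0 := by unfold uu; rw [if_pos rfl]
      rw [hu, zero_mul, zero_mul]
    · have h2 := hrec r (by omega) (by omega)
      linear_combination (uu th d j r) * h2
  have hR : (1 - uu th d j r) * th (r + 1) ^ 2 = (1 - uu th d j r) *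
      ((be * th r + ga) * th (r + 1) - (th r ^ 2 - ga * th r - rh)) := by
    rcases eq_or_ne r (d - j) with h1 | h1
    · have hu : uu th d j r = 1 := by unfold uu; rw [if_neg (by omega), if_pos h1]
      rw [hu, sub_self, zero_mul, zero_mul]
    · have h2 := hrec (r + 1) (by omega) (by omega)
      rw [Nat.add_sub_cancel] at h2
      linear_combination (1 - uu th d j r) * h2
  unfold qq
  rw [pow_add (th (r - 1)) i 2, pow_add (th (r + 1)) i 2, pow_succ, pow_succ]
  linear_combination (th (r - 1) ^ i) * hL + (th (r + 1) ^ i) * hR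

theorem q_poly {be ga rh : K} (hrec : ∀ i, 1 ≤ i → i ≤ d →
    th (i - 1) ^ 2 - be * th (i - 1) * th i + th i ^ 2 - ga * (th (i - 1) + th i) = rh)
    (i : ℕ) : ∃ p p' : K[X], p.natDegree ≤ i ∧ p'.natDegree ≤ i + 1 ∧
      ∀ r ∈ Finset.Icc j (d - j), p.eval (th r) = qq th d j i r ∧
        p'.eval (th r) = qq th d j (i + 1) r := by
  induction i with
  | zero =>
    refine ⟨1, C (kap th d j) * X + C (del th d j), by simp, natDegree_linear_le, ?_⟩
    intro r hr
    refine ⟨?_, ?_⟩
    · rw [eval_one, q_zero hinj hj]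
    · rw [q_one hinj hj hr]
      simp
  | succ i ih =>
    obtain ⟨p, p', hp, hp', h⟩ := ih
    refine ⟨p', (C be * X + C ga) * p' - (X ^ 2 - C ga * X - C rh) * p, hp', ?_, ?_⟩
    · refine (natDegree_sub_le _ _).trans (max_le ?_ ?_)
      · refine (natDegree_mul_le_of_le natDegree_linear_le hp').trans ?_
        omega
      · have h2 : (X ^ 2 - C ga * X - C rh : K[X]).natDegree ≤ 2 := by compute_degree
        refine (natDegree_mul_le_of_le h2 hp).trans ?_
        omega
    · intro r hr
      refine ⟨(h r hr).2, ?_⟩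
      rw [q_rec hinj hj hrec hr]
      simp only [eval_sub, eval_mul, eval_add, eval_C, eval_X, eval_pow, (h r hr).1, (h r hr).2]

/-- the moments -/
theorem mom_poly {be ga rh : K} (hrec : ∀ i, 1 ≤ i → i ≤ d →
    th (i - 1) ^ 2 - be * th (i - 1) * th i + th i ^ 2 - ga * (th (i - 1) + th i) = rh)
    (n : ℕ) : ∃ p : K[X], p.natDegree ≤ n ∧ ∀ r ∈ Finset.Icc j (d - j),
      p.eval (th r) = ∑ s ∈ Finset.Icc j (d - j), th s ^ (n + 1) * c0 th d j r s := by
  have hstep : ∀ n : ℕ, ∀ r ∈ Finset.Icc j (d - j),
      ∑ s ∈ Finset.Icc j (d - j), th s ^ (n + 1) * c0 th d j r s =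
        th r * (∑ s ∈ Finset.Icc j (d - j), th s ^ n * c0 th d j r s) + qq th d j n r := by
    intro n r hr
    have h1 := (facts hinj hj hr).2 fun s => th s ^ n
    unfold qq
    rw [← h1, Finset.mul_sum, ← Finset.sum_add_distrib]
    refine Finset.sum_congr rfl fun s _ => ?_
    ring
  induction n with
  | zero =>
    obtain ⟨p, p', hp, hp', h⟩ := q_poly hinj hj hrec 0
    refine ⟨p, hp, fun r hr => ?_⟩
    rw [hstep 0 r hr, (h r hr).1]
    have h1 := (facts hinj hj hr).1
    simp only [pow_zero, one_mul, h1, mul_zero, zero_add]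
  | succ n ih =>
    obtain ⟨p0, hp0, h0⟩ := ih
    obtain ⟨p, p', hp, hp', h⟩ := q_poly hinj hj hrec n
    refine ⟨X * p0 + p', ?_, fun r hr => ?_⟩
    · refine natDegree_add_le_of_degree_le ?_ hp'
      refine (natDegree_mul_le_of_le natDegree_X_le hp0).trans ?_
      omega
    · rw [hstep (n + 1) r hr, ← h0 r hr, ← (h r hr).2]
      simp

end

end D0E

theorem t_D0E : S_D0E := by
  intro K _ th d hinj ⟨be, ga, rh, hrec⟩ j hj e n hen
  have h1 : ∀ r ∈ Finset.Icc j (d - j), ∑ s ∈ Finset.Icc j (d - j),
      (th r ^ e * th s ^ n) * Z0 th d j r s =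
        (th r ^ e * ∑ s ∈ Finset.Icc j (d - j), th s ^ n * c0 th d j r s) / om th d j r := by
    intro r _
    rw [Finset.mul_sum, Finset.sum_div]
    refine Finset.sum_congr rfl fun s _ => ?_
    unfold Z0
    ring
  rw [Finset.sum_congr rfl h1]
  rcases Nat.eq_zero_or_pos n with hn | hn
  · subst hn
    refine Finset.sum_eq_zero fun r hr => ?_
    have h2 := (D0E.facts hinj hj hr).1
    simp only [pow_zero, one_mul, h2, mul_zero, zero_div]
  · obtain ⟨n', rfl⟩ : ∃ n', n = n' + 1 := ⟨n - 1, by omega⟩
    obtain ⟨p, hp, h2⟩ := D0E.mom_poly hinj hj hrec n'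
    have h3 := D0E.pairing th d j hinj hj (X ^ e * p) (by
      have h4 : (X ^ e * p).natDegree ≤ e + n' :=
        natDegree_mul_le_of_le (natDegree_X_pow_le e) hp
      omega)
    rw [← h3]
    refine Finset.sum_congr rfl fun r hr => ?_
    rw [← h2 r hr]
    simp

end Pool.Agent.R639.TD
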