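import Pool.Agent.R639.TD.Defs

set_option autoImplicit false

namespace Pool.Agent.R639.TD

open Module Polynomial

namespace D0U

variable {K : Type} [Field K]

theorem orth (S : Finset ℕ) (th g : ℕ → K) (k : ℕ)
    (h : ∀ e ≤ k, ∑ r ∈ S, th r ^ e * g r = 0) (f : K[X]) (hf : f.natDegree ≤ k) :
    ∑ r ∈ S, f.eval (th r) * g r = 0 := by
  have h1 : ∀ x : K, f.eval x = ∑ e ∈ Finset.range (k + 1), f.coeff e * x ^ e := fun x =>
    eval_eq_sum_range' (Nat.lt_succ_of_le hf) x
  calc ∑ r ∈ S, f.eval (th r) * g r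
      = ∑ r ∈ S, ∑ e ∈ Finset.range (k + 1), f.coeff e * (th r ^ e * g r) := by
        refine Finset.sum_congr rfl fun r _ => ?_
        rw [h1, Finset.sum_mul]
        exact Finset.sum_congr rfl fun e _ => by ring
    _ = ∑ e ∈ Finset.range (k + 1), f.coeff e * ∑ r ∈ S, th r ^ e * g r := by
        rw [Finset.sum_comm]
        exact Finset.sum_congr rfl fun e _ => by rw [Finset.mul_sum]
    _ = 0 := by
        refine Finset.sum_eq_zero fun e he => ?_
        rw [h e (by rw [Finset.mem_range] at he; omega), mul_zero]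

/-- the node polynomial -/
noncomputable def nd (T : Finset ℕ) (th : ℕ → K) : K[X] := ∏ h ∈ T, (X - C (th h))

theorem nd_deg (T : Finset ℕ) (th : ℕ → K) : (nd T th).natDegree = T.card := by
  unfold nd
  rw [natDegree_prod_of_monic _ _ (fun i _ => monic_X_sub_C _)]
  simp

theorem nd_eval (T : Finset ℕ) (th : ℕ → K) (x : K) : (nd T th).eval x = ∏ h ∈ T, (x - th h) := by
  unfold nd
  rw [eval_prod]
  simp

theorem nd_zero (T : Finset ℕ) (th : ℕ → K) (r : ℕ) (hr : r ∈ T) : (nd T th).eval (th r) = 0 := by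
  rw [nd_eval]
  exact Finset.prod_eq_zero hr (sub_self _)

theorem A (S : Finset ℕ) (th g : ℕ → K) (k : ℕ) (h : ∀ e ≤ k, ∑ r ∈ S, th r ^ e * g r = 0)
    (hc : S.card = k + 1) (r : ℕ) (hr : r ∈ S) : g r * ∏ h ∈ S.erase r, (th r - th h) = 0 := by
  have h1 := orth S th g k h (nd (S.erase r) th)
    (by rw [nd_deg, Finset.card_erase_of_mem hr]; omega)
  rw [Finset.sum_eq_single_of_mem r hr] at h1
  · rw [nd_eval] at h1
    rw [mul_comm]; exact h1
  · intro b hb hbr
    rw [nd_zero _ _ _ (Finset.mem_erase.2 ⟨hbr, hb⟩), zero_mul]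

theorem B (S : Finset ℕ) (th g : ℕ → K) (k : ℕ) (h : ∀ e ≤ k, ∑ r ∈ S, th r ^ e * g r = 0)
    (hc : S.card = k + 2) (r q : ℕ) (hr : r ∈ S) (hq : q ∈ S) (hrq : r ≠ q) :
    g r * ∏ h ∈ S.erase r, (th r - th h) = g q * ∏ h ∈ S.erase q, (th q - th h) := by
  have hq' : q ∈ S.erase r := Finset.mem_erase.2 ⟨hrq.symm, hq⟩
  have hr' : r ∈ S.erase q := Finset.mem_erase.2 ⟨hrq, hr⟩
  have h1 := orth S th g k h (nd ((S.erase r).erase q) th)
    (by rw [nd_deg, Finset.card_erase_of_mem hq', Finset.card_erase_of_mem hr]; omega)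
  rw [← Finset.add_sum_erase S _ hr, ← Finset.add_sum_erase _ _ hq', Finset.sum_eq_zero, add_zero,
    nd_eval, nd_eval] at h1
  · rw [← Finset.mul_prod_erase (S.erase r) _ hq', ← Finset.mul_prod_erase (S.erase q) _ hr',
      Finset.erase_right_comm (a := q) (b := r)]
    linear_combination (th r - th q) * h1
  · intro b hb
    rw [nd_zero _ _ _ hb, zero_mul]

theorem C3 (S : Finset ℕ) (th g : ℕ → K) (k : ℕ) (h : ∀ e ≤ k, ∑ r ∈ S, th r ^ e * g r = 0)
    (hc : S.card = k + 3) (r q p : ℕ) (hr : r ∈ S) (hq : q ∈ S) (hp : p ∈ S) (hrq : r ≠ q)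
    (hrp : r ≠ p) (hqp : q ≠ p) :
    (g r * ∏ h ∈ S.erase r, (th r - th h)) * (th q - th p)
      - (g q * ∏ h ∈ S.erase q, (th q - th h)) * (th r - th p)
      + (g p * ∏ h ∈ S.erase p, (th p - th h)) * (th r - th q) = 0 := by
  have hq1 : q ∈ S.erase r := Finset.mem_erase.2 ⟨hrq.symm, hq⟩
  have hp1 : p ∈ (S.erase r).erase q :=
    Finset.mem_erase.2 ⟨hqp.symm, Finset.mem_erase.2 ⟨hrp.symm, hp⟩⟩
  have hr2 : r ∈ S.erase q := Finset.mem_erase.2 ⟨hrq, hr⟩
  have hp2 : p ∈ (S.erase q).erase r :=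
    Finset.mem_erase.2 ⟨hrp.symm, Finset.mem_erase.2 ⟨hqp.symm, hp⟩⟩
  have hr3 : r ∈ S.erase p := Finset.mem_erase.2 ⟨hrp, hr⟩
  have hq3 : q ∈ (S.erase p).erase r :=
    Finset.mem_erase.2 ⟨hrq.symm, Finset.mem_erase.2 ⟨hqp, hq⟩⟩
  have h1 := orth S th g k h (nd (((S.erase r).erase q).erase p) th)
    (by rw [nd_deg, Finset.card_erase_of_mem hp1, Finset.card_erase_of_mem hq1,
      Finset.card_erase_of_mem hr]; omega)
  rw [← Finset.add_sum_erase S _ hr, ← Finset.add_sum_erase _ _ hq1,
    ← Finset.add_sum_erase _ _ hp1, Finset.sum_eq_zero, add_zero,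
    nd_eval, nd_eval, nd_eval] at h1
  · rw [← Finset.mul_prod_erase (S.erase r) _ hq1, ← Finset.mul_prod_erase _ _ hp1,
      ← Finset.mul_prod_erase (S.erase q) _ hr2, ← Finset.mul_prod_erase _ _ hp2,
      ← Finset.mul_prod_erase (S.erase p) _ hr3, ← Finset.mul_prod_erase _ _ hq3]
    have e1 : ((S.erase q).erase r).erase p = ((S.erase r).erase q).erase p := by
      rw [Finset.erase_right_comm (a := q) (b := r)]
    have e2 : ((S.erase p).erase r).erase q = ((S.erase r).erase q).erase p := by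
      rw [Finset.erase_right_comm (a := p) (b := r), Finset.erase_right_comm (a := p) (b := q)]
    rw [e1, e2]
    linear_combination (th r - th q) * (th r - th p) * (th q - th p) * h1
  · intro b hb
    rw [nd_zero _ _ _ hb, zero_mul]

/-- two nodes -/
theorem two (x y u v c : K) (hxy : x ≠ y) (h0 : u + v = 0) (h1 : x * u + y * v = c) :
    v = c / (y - x) ∧ u = - (c / (y - x)) := by
  have h2 : y - x ≠ 0 := sub_ne_zero.2 hxy.symm
  have h3 : v = c / (y - x) := by
    rw [eq_div_iff h2]
    linear_combination h1 - x * h0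
  refine ⟨h3, ?_⟩
  rw [← h3]
  linear_combination h0

/-- three nodes -/
theorem three (x y w a b c : K) (hxy : x ≠ y) (hxw : x ≠ w) (hyw : y ≠ w) (h0 : a + b + c = 0)
    (h1 : x * a + y * b + w * c = 0) (h2 : x ^ 2 * a + y ^ 2 * b + w ^ 2 * c = 0) :
    a = 0 ∧ b = 0 ∧ c = 0 := by
  have e1 : x - y ≠ 0 := sub_ne_zero.2 hxy
  have e2 : x - w ≠ 0 := sub_ne_zero.2 hxw
  have e3 : y - w ≠ 0 := sub_ne_zero.2 hyw
  have ha : (x - y) * (x - w) * a = 0 := by linear_combination h2 - (y + w) * h1 + y * w * h0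
  have hb : (x - y) * (y - w) * b = 0 := by linear_combination -h2 + (x + w) * h1 - x * w * h0
  have hc : (x - w) * (y - w) * c = 0 := by linear_combination h2 - (x + y) * h1 + x * y * h0
  refine ⟨?_, ?_, ?_⟩
  · exact (mul_eq_zero.1 ha).resolve_left (mul_ne_zero e1 e2)
  · exact (mul_eq_zero.1 hb).resolve_left (mul_ne_zero e1 e3)
  · exact (mul_eq_zero.1 hc).resolve_left (mul_ne_zero e2 e3)

end D0U

open D0U in
theorem t_D0U : S_D0U := by
  intro K _ th d hinj j hj z hz
  obtain ⟨hz0, hz1⟩ := hz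
  set I := Finset.Icc j (d - j) with hI
  have hcard : I.card = d - j + 1 - j := by rw [hI, Nat.card_Icc]
  have hmem : ∀ r, r ∈ I ↔ j ≤ r ∧ r ≤ d - j := fun r => by rw [hI, Finset.mem_Icc]
  have hne : ∀ a b, a ∈ I → b ∈ I → a ≠ b → th a ≠ th b := by
    intro a b ha hb hab h
    rw [hmem] at ha hb
    exact hab (hinj a b (by omega) (by omega) h)
  have hom : ∀ r ∈ I, om th d j r ≠ 0 := by
    intro r hr
    unfold om
    rw [← hI]
    refine Finset.prod_ne_zero_iff.2 fun h hh => ?_
    rw [Finset.mem_erase] at hh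
    exact sub_ne_zero.2 (hne r h hr hh.2 hh.1.symm)
  -- moments
  have hM : ∀ e n, e + n + j + j ≤ d → ∑ r ∈ I, th r ^ e * (∑ s ∈ I, th s ^ n * z r s) = 0 := by
    intro e n hen
    rw [← hz1 e n hen]
    refine Finset.sum_congr rfl fun r _ => ?_
    rw [Finset.mul_sum]
    refine Finset.sum_congr rfl fun s _ => ?_
    rw [smul_eq_mul]; ring
  have hM0 : ∀ r ∈ I, ∑ s ∈ I, th s ^ 0 * z r s = 0 := by
    intro r hr
    have := A I th (fun r => ∑ s ∈ I, th s ^ 0 * z r s) (d - j - j)
      (fun e he => hM e 0 (by omega)) (by omega) r hr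
    exact (mul_eq_zero.1 this).resolve_right (hom r hr)
  have hjI : j ∈ I := by rw [hmem]; omega
  have hdI : d - j ∈ I := by rw [hmem]; omega
  set c : K := (∑ s ∈ I, th s ^ 1 * z j s) * om th d j j with hc
  have hM1 : ∀ r ∈ I, (∑ s ∈ I, th s ^ 1 * z r s) * om th d j r = c := by
    intro r hr
    by_cases hrj : r = j
    · rw [hrj]
    · exact B I th (fun r => ∑ s ∈ I, th s ^ 1 * z r s) (d - j - j - 1)
        (fun e he => hM e 1 (by omega)) (by omega) r j hr hjI hrj
  refine ⟨c, ?_⟩
  -- sums over two or three nodes at the ends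
  have hsj : ∀ n : ℕ, ∑ s ∈ I, th s ^ n * z j s = th j ^ n * z j j + th (j + 1) ^ n * z j (j + 1) := by
    intro n
    have h1 : ∑ s ∈ I, th s ^ n * z j s = ∑ s ∈ ({j, j + 1} : Finset ℕ), th s ^ n * z j s := by
      symm
      apply Finset.sum_subset
      · intro s hs
        simp only [Finset.mem_insert, Finset.mem_singleton] at hs
        rw [hmem]; omega
      · intro s hs hs'
        simp only [Finset.mem_insert, Finset.mem_singleton] at hs'
        rw [hmem] at hs
        rw [hz0 j s (by omega), mul_zero]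
    rw [h1, Finset.sum_pair (by omega)]
  have hsd : ∀ n : ℕ, ∑ s ∈ I, th s ^ n * z (d - j) s =
      th (d - j) ^ n * z (d - j) (d - j) + th (d - j - 1) ^ n * z (d - j) (d - j - 1) := by
    intro n
    have h1 : ∑ s ∈ I, th s ^ n * z (d - j) s =
        ∑ s ∈ ({d - j, d - j - 1} : Finset ℕ), th s ^ n * z (d - j) s := by
      symm
      apply Finset.sum_subset
      · intro s hs
        simp only [Finset.mem_insert, Finset.mem_singleton] at hs
        rw [hmem]; omega
      · intro s hs hs'
        simp only [Finset.mem_insert, Finset.mem_singleton] at hs'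
        rw [hmem] at hs
        rw [hz0 (d - j) s (by omega), mul_zero]
    rw [h1, Finset.sum_pair (by omega)]
  have hj1I : j + 1 ∈ I := by rw [hmem]; omega
  have hd1I : d - j - 1 ∈ I := by rw [hmem]; omega
  -- the values at the left end
  have hL := two (th j) (th (j + 1)) (z j j) (z j (j + 1)) (c / om th d j j)
    (hne _ _ hjI hj1I (by omega))
    (by have := hM0 j hjI; rw [hsj 0] at this; simpa using this)
    (by rw [eq_div_iff (hom j hjI), ← hM1 j hjI, hsj 1]; ring)
  have hR := two (th (d - j)) (th (d - j - 1)) (z (d - j) (d - j)) (z (d - j) (d - j - 1))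
    (c / om th d j (d - j))
    (hne _ _ hdI hd1I (by omega))
    (by have := hM0 (d - j) hdI; rw [hsd 0] at this; simpa using this)
    (by rw [eq_div_iff (hom _ hdI), ← hM1 _ hdI, hsd 1]; ring)
  have hjd : th j - th (d - j) ≠ 0 := sub_ne_zero.2 (hne _ _ hjI hdI (by omega))
  have hLn : th (j + 1) - th j ≠ 0 := sub_ne_zero.2 (hne _ _ hj1I hjI (by omega))
  have hRn : th (d - j - 1) - th (d - j) ≠ 0 := sub_ne_zero.2 (hne _ _ hd1I hdI (by omega))
  have hyj : (∑ s ∈ I, th s ^ 2 * z j s) * om th d j j = c * (th j + th (j + 1)) := by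
    rw [hsj 2, hL.1, hL.2]
    have := hom j hjI
    field_simp
    ring
  have hyd : (∑ s ∈ I, th s ^ 2 * z (d - j) s) * om th d j (d - j) =
      c * (th (d - j) + th (d - j - 1)) := by
    rw [hsd 2, hR.1, hR.2]
    have := hom _ hdI
    field_simp
    ring
  intro r hr s hs
  have hr' := (hmem r).1 hr
  have hs' := (hmem s).1 hs
  unfold Z0
  by_cases hfar : r + 1 < s ∨ s + 1 < r
  · rw [hz0 r s hfar]
    unfold c0
    rw [if_neg (by omega), if_neg (by omega), if_neg (by omega)]
    simp
  by_cases hrj : r = j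
  · subst hrj
    have hu : uu th d r r = 0 := by unfold uu; rw [if_pos rfl]
    rcases (by omega : s = r ∨ s = r + 1) with h | h
    · rw [h, hL.2]
      unfold c0
      rw [if_neg (by omega), if_neg (by omega), if_pos rfl, hu]
      have := hom r hr
      field_simp
      ring
    · rw [h, hL.1]
      unfold c0
      rw [if_neg (by omega), if_pos rfl, hu]
      have := hom r hr
      field_simp
      ring
  by_cases hrd : r = d - j
  · have hu : uu th d j r = 1 := by unfold uu; rw [if_neg hrj, if_pos hrd]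
    have hom' := hom _ hdI
    rcases (by omega : s = r ∨ s = r - 1) with h | h
    · rw [h, hrd, hR.2]
      rw [hrd] at hu
      unfold c0
      rw [if_neg (by omega), if_neg (by omega), if_pos rfl, hu]
      field_simp
      ring
    · rw [h, hrd, hR.1]
      rw [hrd] at hu
      unfold c0
      rw [if_pos (by omega), hu]
      field_simp
  -- interior
  have hr1 : r - 1 ∈ I := by rw [hmem]; omega
  have hr2 : r + 1 ∈ I := by rw [hmem]; omega
  have hsr : ∀ n : ℕ, ∑ s ∈ I, th s ^ n * z r s = th (r - 1) ^ n * z r (r - 1) +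
      th r ^ n * z r r + th (r + 1) ^ n * z r (r + 1) := by
    intro n
    have h1 : ∑ s ∈ I, th s ^ n * z r s =
        ∑ s ∈ ({r - 1, r, r + 1} : Finset ℕ), th s ^ n * z r s := by
      symm
      apply Finset.sum_subset
      · intro s hs
        simp only [Finset.mem_insert, Finset.mem_singleton] at hs
        rw [hmem]; omega
      · intro s hs hs'
        simp only [Finset.mem_insert, Finset.mem_singleton] at hs'
        rw [hmem] at hs
        rw [hz0 r s (by omega), mul_zero]
    rw [h1, Finset.sum_insert (by simp; omega), Finset.sum_pair (by omega), add_assoc]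
  have hlin := C3 I th (fun r => ∑ s ∈ I, th s ^ 2 * z r s) (d - j - j - 2)
    (fun e he => hM e 2 (by omega)) (by omega) r j (d - j) hr hjI hdI hrj hrd (by omega)
  have hlin' : ((∑ s ∈ I, th s ^ 2 * z r s) * om th d j r) * (th j - th (d - j))
      - (c * (th j + th (j + 1))) * (th r - th (d - j))
      + (c * (th (d - j) + th (d - j - 1))) * (th r - th j) = 0 := by
    rw [← hyj, ← hyd]
    exact hlin
  have hy : (∑ s ∈ I, th s ^ 2 * z r s) * om th d j r =
      c * ((1 + kap th d j) * th r + del th d j) := by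
    unfold del kap
    have e1 : d - j - 1 = d - j - 1 := rfl
    rw [← sub_eq_zero]
    have h3 : ((∑ s ∈ I, th s ^ 2 * z r s) * om th d j r -
      c * ((1 + (th (j + 1) - th (d - j - 1)) / (th j - th (d - j))) * th r +
        (th (j + 1) - (th (j + 1) - th (d - j - 1)) / (th j - th (d - j)) * th j))) *
        (th j - th (d - j)) = 0 := by
      field_simp
      linear_combination hlin'
    exact (mul_eq_zero.1 h3).resolve_right hjd
  have n1 : th (r - 1) ≠ th r := hne _ _ hr1 hr (by omega)
  have n2 : th (r - 1) ≠ th (r + 1) := hne _ _ hr1 hr2 (by omega)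
  have n3 : th r ≠ th (r + 1) := hne _ _ hr hr2 (by omega)
  have m1 : th (r - 1) - th r ≠ 0 := sub_ne_zero.2 n1
  have m2 : th (r + 1) - th (r - 1) ≠ 0 := sub_ne_zero.2 n2.symm
  have m3 : th (r + 1) - th r ≠ 0 := sub_ne_zero.2 n3.symm
  have homr := hom r hr
  set u := uu th d j r with hu
  have hu' : u * (th (r + 1) - th (r - 1)) = th (r + 1) - (kap th d j * th r + del th d j) := by
    rw [hu]
    unfold uu
    rw [if_neg hrj, if_neg hrd, div_mul_cancel₀ _ m2]
  have ca : c0 th d j r (r - 1) = u / (th (r - 1) - th r) := by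
    unfold c0; rw [if_pos (by omega)]
  have cb : c0 th d j r r = - (u / (th (r - 1) - th r)) - (1 - u) / (th (r + 1) - th r) := by
    unfold c0; rw [if_neg (by omega), if_neg (by omega), if_pos rfl]
  have cc : c0 th d j r (r + 1) = (1 - u) / (th (r + 1) - th r) := by
    unfold c0; rw [if_neg (by omega), if_pos rfl]
  have key := three (th (r - 1)) (th r) (th (r + 1))
    (z r (r - 1) * om th d j r - c * c0 th d j r (r - 1))
    (z r r * om th d j r - c * c0 th d j r r)
    (z r (r + 1) * om th d j r - c * c0 th d j r (r + 1)) n1 n2 n3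
    (by
      have h0 := hM0 r hr
      rw [hsr 0] at h0
      simp only [pow_zero, one_mul] at h0
      rw [ca, cb, cc]
      linear_combination om th d j r * h0)
    (by
      have h0 := hM1 r hr
      rw [hsr 1] at h0
      simp only [pow_one] at h0
      rw [ca, cb, cc]
      have e1 : th (r - 1) * (u / (th (r - 1) - th r)) + th r * (- (u / (th (r - 1) - th r)) -
        (1 - u) / (th (r + 1) - th r)) + th (r + 1) * ((1 - u) / (th (r + 1) - th r)) = 1 := by
        field_simp
        ring
      linear_combination h0 - c * e1)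
    (by
      have h0 := hy
      rw [hsr 2] at h0
      rw [ca, cb, cc]
      have e1 : th (r - 1) ^ 2 * (u / (th (r - 1) - th r)) + th r ^ 2 * (- (u / (th (r - 1) - th r)) -
        (1 - u) / (th (r + 1) - th r)) + th (r + 1) ^ 2 * ((1 - u) / (th (r + 1) - th r)) =
          u * (th (r - 1) + th r) + (1 - u) * (th r + th (r + 1)) := by
        field_simp
        ring
      linear_combination h0 - c * e1 + c * hu')
  obtain ⟨k1, k2, k3⟩ := key
  rcases (by omega : s = r - 1 ∨ s = r ∨ s = r + 1) with h | h | h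
  · rw [h, div_mul_eq_mul_div, eq_div_iff homr]
    linear_combination k1
  · rw [h, div_mul_eq_mul_div, eq_div_iff homr]
    linear_combination k2
  · rw [h, div_mul_eq_mul_div, eq_div_iff homr]
    linear_combination k3

end Pool.Agent.R639.TD
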