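import Pool.Agent.R639.TD.Defs

/-!
# MP_770f2c_al, piece D1E (and lemmas shared with D1U)
-/

set_option autoImplicit false

namespace Pool.Agent.R639.TD

open Module Polynomial

namespace PD1

variable {K : Type} [Field K]

theorem erase0 (q : ℕ) : (Finset.Icc q (q + 2)).erase q = {q + 1, q + 2} := by
  ext x
  simp only [Finset.mem_erase, Finset.mem_Icc, Finset.mem_insert, Finset.mem_singleton]
  omega

theorem erase1 (q : ℕ) : (Finset.Icc q (q + 2)).erase (q + 1) = {q, q + 2} := by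
  ext x
  simp only [Finset.mem_erase, Finset.mem_Icc, Finset.mem_insert, Finset.mem_singleton]
  omega

theorem erase2 (q : ℕ) : (Finset.Icc q (q + 2)).erase (q + 2) = {q, q + 1} := by
  ext x
  simp only [Finset.mem_erase, Finset.mem_Icc, Finset.mem_insert, Finset.mem_singleton]
  omega

theorem cP0 (th : ℕ → K) (q : ℕ) :
    cP th (q + 1) q = (th q - th (q + 1))⁻¹ * (th q - th (q + 2))⁻¹ := by
  unfold cP
  rw [if_pos (by omega), Nat.add_sub_cancel, show q + 1 + 1 = q + 2 from rfl, erase0,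
    Finset.prod_pair (by omega)]

theorem cP1 (th : ℕ → K) (q : ℕ) :
    cP th (q + 1) (q + 1) = (th (q + 1) - th q)⁻¹ * (th (q + 1) - th (q + 2))⁻¹ := by
  unfold cP
  rw [if_pos (by omega), Nat.add_sub_cancel, show q + 1 + 1 = q + 2 from rfl, erase1,
    Finset.prod_pair (by omega)]

theorem cP2 (th : ℕ → K) (q : ℕ) :
    cP th (q + 1) (q + 2) = (th (q + 2) - th q)⁻¹ * (th (q + 2) - th (q + 1))⁻¹ := by
  unfold cP
  rw [if_pos (by omega), Nat.add_sub_cancel, show q + 1 + 1 = q + 2 from rfl, erase2,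
    Finset.prod_pair (by omega)]

theorem cP_far (th : ℕ → K) {q s : ℕ} (h : s < q ∨ q + 2 < s) : cP th (q + 1) s = 0 := by
  unfold cP
  rw [if_neg (by omega)]

theorem sum_three {J : Finset ℕ} {q : ℕ} (h0 : q ∈ J) (h1 : q + 1 ∈ J) (h2 : q + 2 ∈ J)
    (f : ℕ → K) (hf : ∀ s, s < q ∨ q + 2 < s → f s = 0) :
    ∑ s ∈ J, f s = f q + f (q + 1) + f (q + 2) := by
  have hsub : ({q, q + 1, q + 2} : Finset ℕ) ⊆ J := by
    intro x hx
    simp only [Finset.mem_insert, Finset.mem_singleton] at hx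
    rcases hx with rfl | rfl | rfl <;> assumption
  rw [← Finset.sum_subset hsub]
  · rw [Finset.sum_insert (by simp), Finset.sum_insert (by simp), Finset.sum_singleton, add_assoc]
  · intro x _ hx
    apply hf
    simp only [Finset.mem_insert, Finset.mem_singleton] at hx
    omega

/-- the moments of `cP` -/
def S (th : ℕ → K) (n q : ℕ) : K :=
  th q ^ n * cP th (q + 1) q + th (q + 1) ^ n * cP th (q + 1) (q + 1) +
    th (q + 2) ^ n * cP th (q + 1) (q + 2)

theorem S0 {th : ℕ → K} {q : ℕ} (h1 : th q ≠ th (q + 1)) (h2 : th q ≠ th (q + 2))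
    (h3 : th (q + 1) ≠ th (q + 2)) : S th 0 q = 0 := by
  unfold S
  rw [cP0, cP1, cP2]
  have e1 := sub_ne_zero.2 h1
  have e2 := sub_ne_zero.2 h2
  have e3 := sub_ne_zero.2 h3
  have e4 := sub_ne_zero.2 h1.symm
  have e5 := sub_ne_zero.2 h2.symm
  have e6 := sub_ne_zero.2 h3.symm
  field_simp
  ring

theorem S1 {th : ℕ → K} {q : ℕ} (h1 : th q ≠ th (q + 1)) (h2 : th q ≠ th (q + 2))
    (h3 : th (q + 1) ≠ th (q + 2)) : S th 1 q = 0 := by
  unfold S
  rw [cP0, cP1, cP2]
  have e1 := sub_ne_zero.2 h1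
  have e2 := sub_ne_zero.2 h2
  have e3 := sub_ne_zero.2 h3
  have e4 := sub_ne_zero.2 h1.symm
  have e5 := sub_ne_zero.2 h2.symm
  have e6 := sub_ne_zero.2 h3.symm
  field_simp
  ring

theorem S2 {th : ℕ → K} {q : ℕ} (h1 : th q ≠ th (q + 1)) (h2 : th q ≠ th (q + 2))
    (h3 : th (q + 1) ≠ th (q + 2)) : S th 2 q = 1 := by
  unfold S
  rw [cP0, cP1, cP2]
  have e1 := sub_ne_zero.2 h1
  have e2 := sub_ne_zero.2 h2
  have e3 := sub_ne_zero.2 h3
  have e4 := sub_ne_zero.2 h1.symm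
  have e5 := sub_ne_zero.2 h2.symm
  have e6 := sub_ne_zero.2 h3.symm
  field_simp
  ring

theorem S_rec {th : ℕ → K} {q : ℕ} {be ga rh : K}
    (h1 : th q ^ 2 - be * th q * th (q + 1) + th (q + 1) ^ 2 - ga * (th q + th (q + 1)) = rh)
    (h2 : th (q + 1) ^ 2 - be * th (q + 1) * th (q + 2) + th (q + 2) ^ 2 -
      ga * (th (q + 1) + th (q + 2)) = rh) (n : ℕ) :
    S th (n + 3) q = (be * th (q + 1) + ga + th (q + 1)) * S th (n + 2) q -
      ((be * th (q + 1) + ga) * th (q + 1) + (th (q + 1) ^ 2 - ga * th (q + 1) - rh)) *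
        S th (n + 1) q + th (q + 1) * (th (q + 1) ^ 2 - ga * th (q + 1) - rh) * S th n q := by
  unfold S
  linear_combination (th q ^ n * (th q - th (q + 1)) * cP th (q + 1) q) * h1 +
    (th (q + 2) ^ n * (th (q + 2) - th (q + 1)) * cP th (q + 1) (q + 2)) * h2

theorem natDegree_bound {A P : K[X]} {a n m : ℕ} (hA : A.natDegree ≤ a)
    (hP : P = 0 ∨ P.natDegree + 2 ≤ n) (hm : a + n ≤ m) :
    A * P = 0 ∨ (A * P).natDegree + 2 ≤ m := by
  rcases hP with h | h
  · left; rw [h, mul_zero]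
  · right
    have := Polynomial.natDegree_mul_le (p := A) (q := P)
    omega

theorem add_bound {P Q : K[X]} {m : ℕ} (hP : P = 0 ∨ P.natDegree + 2 ≤ m)
    (hQ : Q = 0 ∨ Q.natDegree + 2 ≤ m) : P + Q = 0 ∨ (P + Q).natDegree + 2 ≤ m := by
  rcases hP with h | h
  · rw [h, zero_add]; exact hQ
  · rcases hQ with h' | h'
    · rw [h', add_zero]; exact Or.inr h
    · right
      have := Polynomial.natDegree_add_le P Q
      have h3 : max P.natDegree Q.natDegree ≤ m - 2 := max_le (by omega) (by omega)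
      omega

/-- the moments of `cP` are polynomials -/
theorem S_poly {th : ℕ → K} {d : ℕ} (hinj : ∀ i j, i ≤ d → j ≤ d → th i = th j → i = j)
    (hrec : Rec th d) (n : ℕ) : ∃ P : K[X], (P = 0 ∨ P.natDegree + 2 ≤ n) ∧
      ∀ q, q + 2 ≤ d → S th n q = P.eval (th (q + 1)) := by
  obtain ⟨be, ga, rh, hr⟩ := hrec
  have hd : ∀ q, q + 2 ≤ d → th q ≠ th (q + 1) ∧ th q ≠ th (q + 2) ∧ th (q + 1) ≠ th (q + 2) := by
    intro q hq
    refine ⟨fun h => ?_, fun h => ?_, fun h => ?_⟩
    · have := hinj _ _ (by omega) (by omega) h; omega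
    · have := hinj _ _ (by omega) (by omega) h; omega
    · have := hinj _ _ (by omega) (by omega) h; omega
  have key : ∀ n : ℕ, (∃ P : K[X], (P = 0 ∨ P.natDegree + 2 ≤ n) ∧
      ∀ q, q + 2 ≤ d → S th n q = P.eval (th (q + 1))) ∧ (∃ P : K[X], (P = 0 ∨ P.natDegree + 2 ≤ n + 1) ∧
      ∀ q, q + 2 ≤ d → S th (n + 1) q = P.eval (th (q + 1))) ∧
      (∃ P : K[X], (P = 0 ∨ P.natDegree + 2 ≤ n + 2) ∧
      ∀ q, q + 2 ≤ d → S th (n + 2) q = P.eval (th (q + 1))) := by
    intro n
    induction n with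
    | zero =>
      refine ⟨⟨0, Or.inl rfl, fun q hq => ?_⟩, ⟨0, Or.inl rfl, fun q hq => ?_⟩,
        ⟨1, Or.inr (by simp), fun q hq => ?_⟩⟩
      · obtain ⟨a1, a2, a3⟩ := hd q hq
        rw [S0 a1 a2 a3]; simp
      · obtain ⟨a1, a2, a3⟩ := hd q hq
        rw [zero_add, S1 a1 a2 a3]; simp
      · obtain ⟨a1, a2, a3⟩ := hd q hq
        rw [zero_add, S2 a1 a2 a3]; simp
    | succ n ih =>
      obtain ⟨⟨P0, hP0, e0⟩, ⟨P1, hP1, e1⟩, ⟨P2, hP2, e2⟩⟩ := ih
      refine ⟨⟨P1, hP1, e1⟩, ⟨P2, hP2, e2⟩, ?_⟩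
      refine ⟨(C be * X + C ga + X) * P2 +
        ((-((C be * X + C ga) * X + (X ^ 2 - C ga * X - C rh))) * P1 +
        (X * (X ^ 2 - C ga * X - C rh)) * P0), ?_, fun q hq => ?_⟩
      · apply add_bound
        · exact natDegree_bound (a := 1) (by compute_degree) hP2 (by omega)
        · apply add_bound
          · exact natDegree_bound (a := 2) (by compute_degree) hP1 (by omega)
          · exact natDegree_bound (a := 3) (by compute_degree) hP0 (by omega)
      · have h1 := hr (q + 1) (by omega) (by omega)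
        have h2 := hr (q + 2) (by omega) (by omega)
        rw [Nat.add_sub_cancel] at h1
        rw [show q + 2 - 1 = q + 1 by omega] at h2
        rw [show n + 1 + 2 = n + 3 by omega, S_rec h1 h2, e0 q hq, e1 q hq, e2 q hq]
        simp only [eval_add, eval_mul, eval_C, eval_X, eval_neg, eval_sub, eval_pow]
        ring
  exact (key n).1

end PD1

theorem t_D1E : S_D1E := by
  intro K _ th d hinj hrec j hj e n hen
  obtain ⟨P, hP, hS⟩ := PD1.S_poly hinj hrec n
  have h1 : ∀ r ∈ Finset.Icc (j + 1) (d - (j + 1)),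
      ∑ s ∈ Finset.Icc j (d - j), (th r ^ e * th s ^ n) * Z1 th d j r s =
        (X ^ e * P).eval (th r) /
          ∏ h ∈ (Finset.Icc (j + 1) (d - (j + 1))).erase r, (th r - th h) := by
    intro r hr
    rw [Finset.mem_Icc] at hr
    obtain ⟨q, rfl⟩ : ∃ q, r = q + 1 := ⟨r - 1, by omega⟩
    rw [PD1.sum_three (q := q) (by rw [Finset.mem_Icc]; omega) (by rw [Finset.mem_Icc]; omega)
      (by rw [Finset.mem_Icc]; omega)]
    · rw [eval_mul, eval_pow, eval_X, ← hS q (by omega)]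
      unfold PD1.S Z1 om
      ring
    · intro s hs
      unfold Z1
      rw [PD1.cP_far th hs]
      simp
  rw [Finset.sum_congr rfl h1]
  rcases hP with h | h
  · apply Finset.sum_eq_zero
    intro r _
    rw [h]; simp
  · have hinj2 : Set.InjOn th (Finset.Icc (j + 1) (d - (j + 1)) : Finset ℕ) := by
      intro a ha b hb hab
      rw [Finset.mem_coe, Finset.mem_Icc] at ha hb
      exact hinj a b (by omega) (by omega) hab
    have hdeg : (X ^ e * P).natDegree ≤ e + P.natDegree := by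
      refine Polynomial.natDegree_mul_le.trans ?_
      rw [natDegree_X_pow]
    have hcard : (Finset.Icc (j + 1) (d - (j + 1))).card = d - (j + 1) + 1 - (j + 1) := by simp
    rw [← Lagrange.coeff_eq_sum hinj2]
    · apply Polynomial.coeff_eq_zero_of_natDegree_lt
      rw [hcard]
      omega
    · refine lt_of_le_of_lt Polynomial.degree_le_natDegree ?_
      rw [hcard]
      have : (X ^ e * P).natDegree < d - (j + 1) + 1 - (j + 1) := by omega
      exact_mod_cast this

end Pool.Agent.R639.TD
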