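import Pool.Agent.R639.TD.Defs
import Pool.Agent.R639.TD.P_D1E

/-!
# MP_770f2c_al, piece D1U
-/

set_option autoImplicit false

namespace Pool.Agent.R639.TD

open Module Polynomial

namespace PD1U

variable {K : Type} [Field K]

theorem poly_pair {I : Finset ℕ} {th g : ℕ → K} (p : K[X])
    (h : ∀ e, e ≤ p.natDegree → ∑ r ∈ I, th r ^ e * g r = 0) :
    ∑ r ∈ I, p.eval (th r) * g r = 0 := by
  have h1 : ∀ r ∈ I, p.eval (th r) * g r =
      ∑ e ∈ Finset.range (p.natDegree + 1), p.coeff e * (th r ^ e * g r) := by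
    intro r _
    rw [eval_eq_sum_range, Finset.sum_mul]
    exact Finset.sum_congr rfl fun e _ => by ring
  rw [Finset.sum_congr rfl h1, Finset.sum_comm]
  apply Finset.sum_eq_zero
  intro e he
  rw [← Finset.mul_sum, h e (by rw [Finset.mem_range] at he; omega), mul_zero]

/-- Vandermonde -/
theorem vander {I : Finset ℕ} {th g : ℕ → K} (hinj : ∀ a ∈ I, ∀ b ∈ I, th a = th b → a = b)
    (h : ∀ e, e + 1 ≤ I.card → ∑ r ∈ I, th r ^ e * g r = 0) : ∀ r ∈ I, g r = 0 := by
  intro r0 hr0
  have h1 := poly_pair (I := I) (th := th) (g := g) (Lagrange.nodal (I.erase r0) th) (by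
    intro e he
    rw [Lagrange.natDegree_nodal, Finset.card_erase_of_mem hr0] at he
    have := Finset.card_pos.2 ⟨r0, hr0⟩
    exact h e (by omega))
  rw [Finset.sum_eq_single_of_mem r0 hr0] at h1
  · rw [Lagrange.eval_nodal] at h1
    rcases mul_eq_zero.1 h1 with h2 | h2
    · rw [Finset.prod_eq_zero_iff] at h2
      obtain ⟨a, ha, hab⟩ := h2
      rw [Finset.mem_erase] at ha
      exact absurd (hinj r0 hr0 a ha.2 (sub_eq_zero.1 hab)).symm ha.1
    · exact h2
  · intro b hb hbr
    rw [Lagrange.eval_nodal_at_node (Finset.mem_erase.2 ⟨hbr, hb⟩), zero_mul]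

/-- one condition less: a one dimensional solution space -/
theorem vander2 {I : Finset ℕ} {th g : ℕ → K}
    (h : ∀ e, e + 2 ≤ I.card → ∑ r ∈ I, th r ^ e * g r = 0) {r0 r1 : ℕ} (h0 : r0 ∈ I)
    (h1 : r1 ∈ I) :
    g r0 * ∏ a ∈ I.erase r0, (th r0 - th a) = g r1 * ∏ a ∈ I.erase r1, (th r1 - th a) := by
  by_cases hne : r0 = r1
  · rw [hne]
  have m1 : r1 ∈ I.erase r0 := Finset.mem_erase.2 ⟨fun h => hne h.symm, h1⟩
  have m0 : r0 ∈ I.erase r1 := Finset.mem_erase.2 ⟨hne, h0⟩
  have hcard : ((I.erase r0).erase r1).card + 2 = I.card := by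
    have e1 := Finset.card_erase_add_one m1
    have e2 := Finset.card_erase_add_one h0
    omega
  have hp := poly_pair (I := I) (th := th) (g := g) (Lagrange.nodal ((I.erase r0).erase r1) th) (by
    intro e he
    rw [Lagrange.natDegree_nodal] at he
    exact h e (by omega))
  rw [← Finset.add_sum_erase I _ h0, ← Finset.add_sum_erase (I.erase r0) _ m1] at hp
  have hz : ∑ x ∈ (I.erase r0).erase r1,
      eval (th x) (Lagrange.nodal ((I.erase r0).erase r1) th) * g x = 0 := by
    apply Finset.sum_eq_zero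
    intro x hx
    rw [Lagrange.eval_nodal_at_node hx, zero_mul]
  rw [hz, add_zero, Lagrange.eval_nodal, Lagrange.eval_nodal] at hp
  rw [← Finset.mul_prod_erase (I.erase r0) _ m1, ← Finset.mul_prod_erase (I.erase r1) _ m0,
    Finset.erase_right_comm (a := r1) (b := r0)]
  linear_combination (th r0 - th r1) * hp

end PD1U

theorem t_D1U : S_D1U := by
  intro K _ th d hinj j hj z hz
  obtain ⟨hz0, hz1⟩ := hz
  set I := Finset.Icc (j + 1) (d - (j + 1)) with hI
  set J := Finset.Icc j (d - j) with hJ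
  have hcard : I.card = d - (j + 1) + 1 - (j + 1) := by rw [hI]; simp
  set M : ℕ → ℕ → K := fun n r => ∑ s ∈ J, th s ^ n * z r s with hM
  have hMsum : ∀ e n, e + n + j + (j + 1) ≤ d → ∑ r ∈ I, th r ^ e * M n r = 0 := by
    intro e n hen
    have := hz1 e n hen
    rw [← this]
    refine Finset.sum_congr rfl fun r _ => ?_
    rw [hM]
    simp only
    rw [Finset.mul_sum]
    exact Finset.sum_congr rfl fun s _ => by rw [smul_eq_mul]; ring
  have hinjI : ∀ a ∈ I, ∀ b ∈ I, th a = th b → a = b := by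
    intro a ha b hb hab
    rw [hI, Finset.mem_Icc] at ha hb
    exact hinj a b (by omega) (by omega) hab
  have hM0 : ∀ r ∈ I, M 0 r = 0 :=
    PD1U.vander hinjI (fun e he => hMsum e 0 (by omega))
  have hM1 : ∀ r ∈ I, M 1 r = 0 :=
    PD1U.vander hinjI (fun e he => hMsum e 1 (by omega))
  have hj1 : j + 1 ∈ I := by rw [hI, Finset.mem_Icc]; omega
  set c : K := M 2 (j + 1) * om th d (j + 1) (j + 1) with hc
  have hM2 : ∀ r ∈ I, M 2 r * om th d (j + 1) r = c := by
    intro r hr
    exact PD1U.vander2 (g := M 2) (fun e he => hMsum e 2 (by omega)) hr hj1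
  have hom : ∀ r ∈ I, om th d (j + 1) r ≠ 0 := by
    intro r hr
    unfold om
    rw [Finset.prod_ne_zero_iff]
    intro h hh
    rw [Finset.mem_erase] at hh
    rw [sub_ne_zero]
    intro he
    exact hh.1 (hinjI r hr h hh.2 he).symm
  refine ⟨c, fun r hr s hs => ?_⟩
  have hr' := hr
  rw [hI, Finset.mem_Icc] at hr'
  obtain ⟨q, rfl⟩ : ∃ q, r = q + 1 := ⟨r - 1, by omega⟩
  have hthree : ∀ n, M n (q + 1) =
      th q ^ n * z (q + 1) q + th (q + 1) ^ n * z (q + 1) (q + 1) + th (q + 2) ^ n * z (q + 1) (q + 2) := by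
    intro n
    rw [hM]
    simp only
    rw [PD1.sum_three (q := q) (by rw [hJ, Finset.mem_Icc]; omega) (by rw [hJ, Finset.mem_Icc]; omega)
      (by rw [hJ, Finset.mem_Icc]; omega)]
    intro s hs
    rw [hz0 _ _ (by omega), mul_zero]
  have a0 := hM0 _ hr
  have a1 := hM1 _ hr
  have a2 := hM2 _ hr
  rw [hthree] at a0 a1 a2
  have ho := hom _ hr
  have d1 : th q - th (q + 1) ≠ 0 := by
    rw [sub_ne_zero]; intro h; have := hinj _ _ (by omega) (by omega) h; omega
  have d2 : th q - th (q + 2) ≠ 0 := by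
    rw [sub_ne_zero]; intro h; have := hinj _ _ (by omega) (by omega) h; omega
  have d3 : th (q + 1) - th (q + 2) ≠ 0 := by
    rw [sub_ne_zero]; intro h; have := hinj _ _ (by omega) (by omega) h; omega
  have d1' : th (q + 1) - th q ≠ 0 := by rw [← neg_sub]; exact neg_ne_zero.2 d1
  have d2' : th (q + 2) - th q ≠ 0 := by rw [← neg_sub]; exact neg_ne_zero.2 d2
  have d3' : th (q + 2) - th (q + 1) ≠ 0 := by rw [← neg_sub]; exact neg_ne_zero.2 d3
  rw [pow_zero, pow_zero, pow_zero, one_mul, one_mul, one_mul] at a0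
  rw [pow_one, pow_one, pow_one] at a1
  by_cases hfar : s < q ∨ q + 2 < s
  · unfold Z1
    rw [PD1.cP_far th hfar, zero_div, zero_mul]
    exact hz0 _ _ (by omega)
  · have hs3 : s = q ∨ s = q + 1 ∨ s = q + 2 := by omega
    rcases hs3 with rfl | rfl | rfl
    · have e : z (s + 1) s * ((th s - th (s + 1)) * (th s - th (s + 2))) * om th d (j + 1) (s + 1) = c := by
        linear_combination a2 - (th (s + 1) + th (s + 2)) * om th d (j + 1) (s + 1) * a1 +
          th (s + 1) * th (s + 2) * om th d (j + 1) (s + 1) * a0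
      unfold Z1
      rw [PD1.cP0, ← e]
      field_simp
    · have e : z (q + 1) (q + 1) * ((th (q + 1) - th q) * (th (q + 1) - th (q + 2))) *
          om th d (j + 1) (q + 1) = c := by
        linear_combination a2 - (th q + th (q + 2)) * om th d (j + 1) (q + 1) * a1 +
          th q * th (q + 2) * om th d (j + 1) (q + 1) * a0
      unfold Z1
      rw [PD1.cP1, ← e]
      field_simp
    · have e : z (q + 1) (q + 2) * ((th (q + 2) - th q) * (th (q + 2) - th (q + 1))) *
          om th d (j + 1) (q + 1) = c := by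
        linear_combination a2 - (th q + th (q + 1)) * om th d (j + 1) (q + 1) * a1 +
          th q * th (q + 1) * om th d (j + 1) (q + 1) * a0
      unfold Z1
      rw [PD1.cP2, ← e]
      field_simp

end Pool.Agent.R639.TD
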