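import Pool.Agent.R639.TD.Defs

/-!
# Project TD, piece DECV
-/

namespace Pool.Agent.R639.TD

open Module Polynomial

namespace DECV

variable {K V : Type} [Field K] [AddCommGroup V] [Module K V]

/-- the Newton polynomial -/
noncomputable def tp (th : ℕ → K) (i j : ℕ) : K[X] := ∏ h ∈ Finset.Ico i j, (X - C (th h))

theorem tau_eq (A : Module.End K V) (th : ℕ → K) (i j : ℕ) : tau A th i j = aeval A (tp th i j) :=
  rfl

theorem tp_self (th : ℕ → K) (i : ℕ) : tp th i i = 1 := by simp [tp]

theorem tp_succ (th : ℕ → K) (i j : ℕ) (h : i ≤ j) :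
    tp th i (j + 1) = tp th i j * (X - C (th j)) := by
  rw [tp, tp, Finset.prod_Ico_succ_top h]

theorem tp_eval_zero (th : ℕ → K) (i j r : ℕ) (h1 : i ≤ r) (h2 : r < j) :
    (tp th i j).eval (th r) = 0 := by
  rw [tp, eval_prod]
  exact Finset.prod_eq_zero (Finset.mem_Ico.mpr ⟨h1, h2⟩) (by simp)

theorem tp_eval_ne (th : ℕ → K) (i j r : ℕ) (h : ∀ s, i ≤ s → s < j → th r ≠ th s) :
    (tp th i j).eval (th r) ≠ 0 := by
  rw [tp, eval_prod, Finset.prod_ne_zero_iff]
  intro s hs
  rw [Finset.mem_Ico] at hs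
  simp only [eval_sub, eval_X, eval_C]
  exact sub_ne_zero.mpr (h s hs.1 hs.2)

theorem aeval_KK (h3 : S_PROJ) (A B : Module.End K V) (d : ℕ) (th ts : ℕ → K)
    (hT : IsTD A B d th ts) (l : ℕ) (w : V) (hw : w ∈ KK A B d th ts l) (p : K[X]) :
    aeval A p w = ∑ r ∈ Finset.Icc l (d - l), p.eval (th r) • pr A d th r w := by
  obtain ⟨P1, P2, P3, P4, P5, P6, P7⟩ := h3 K V A B d th ts hT
  rw [P6]
  have hsub : Finset.Icc l (d - l) ⊆ Finset.range (d + 1) := by
    intro x hx
    rw [Finset.mem_Icc] at hx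
    rw [Finset.mem_range]
    omega
  symm
  refine Finset.sum_subset hsub ?_
  intro x hx hx2
  rw [Finset.mem_range] at hx
  have := ((P5 _ hsub w).mp (Submodule.mem_inf.mp hw).2) x (by omega) hx2
  rw [this, smul_zero]

theorem tau_UU (h2 : S_SPLIT) (A B : Module.End K V) (d : ℕ) (th ts : ℕ → K)
    (hT : IsTD A B d th ts) (l : ℕ) (v : V) (hv : v ∈ UU A B d th ts l) (i : ℕ) (hi : i ≤ d)
    (hli : l ≤ i) : tau A th l i v ∈ UU A B d th ts i := by
  obtain ⟨_, _, _, S4, _⟩ := h2 K V A B d th ts hT
  induction i, hli using Nat.le_induction with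
  | base =>
    rw [tau_eq, tp_self]
    simpa using hv
  | succ n hn ih =>
    have := S4 n _ (ih (by omega)) (by omega)
    rw [tau_eq, tp_succ th l n hn, mul_comm, map_mul, Module.End.mul_apply]
    simpa [tau_eq] using this

theorem KK_le_UU (A B : Module.End K V) (d : ℕ) (th ts : ℕ → K) (l : ℕ) :
    KK A B d th ts l ≤ UU A B d th ts l := by
  refine inf_le_inf le_rfl ?_
  unfold ES
  refine iSup₂_le fun i hi => ?_
  refine le_iSup₂_of_le i ?_ le_rfl
  rw [Finset.mem_Icc] at hi ⊢
  omega

/-- the general decomposition -/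
theorem decomp (h1 : S_DEC) (h2 : S_SPLIT) (h3 : S_PROJ) [FiniteDimensional K V]
    (A B : Module.End K V) (d : ℕ) (th ts : ℕ → K) (hT : IsTD A B d th ts) (m : ℕ) (hm : m ≤ d)
    (v : V) (hv : v ∈ ES B ts (Finset.Icc 0 m)) :
    ∃ w : ℕ → ℕ → V, (∀ h j, j ≤ h → h ≤ m → j ≤ d - h → w h j ∈ KK A B d th ts j) ∧
      v = ∑ l ∈ Finset.range (d / 2 + 1), ∑ r ∈ Finset.Icc l (d - l),
        pr A d th r (∑ h ∈ Finset.Icc l (min m (d - l)), (tp th l h).eval (th r) • w h l) := by
  obtain ⟨S1, S2, S3, S4, S5⟩ := h2 K V A B d th ts hT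
  obtain ⟨D1, D2⟩ := h1 K V A B d th ts hT
  rw [S1 m hm, Submodule.mem_iSup_finset_iff_exists_sum] at hv
  obtain ⟨u, hu⟩ := hv
  choose! w hw1 hw2 using fun (h : ℕ) (hh : h ≤ d) => D1 h hh (u h : V) (u h).2
  refine ⟨w, fun h j h1 h2 h3 => hw1 h (by omega) j h1 h3, ?_⟩
  have e1 : v = ∑ h ∈ Finset.Icc 0 m, ∑ j ∈ Finset.range (min h (d - h) + 1),
      tau A th j h (w h j) := by
    rw [← hu]
    refine Finset.sum_congr rfl fun h hh => ?_
    rw [Finset.mem_Icc] at hh
    exact hw2 h (by omega)
  have e2 : v = ∑ h ∈ Finset.Icc 0 m, ∑ j ∈ Finset.range (min h (d - h) + 1),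
      ∑ r ∈ Finset.Icc j (d - j), (tp th j h).eval (th r) • pr A d th r (w h j) := by
    rw [e1]
    refine Finset.sum_congr rfl fun h hh => Finset.sum_congr rfl fun j hj => ?_
    rw [Finset.mem_Icc] at hh
    rw [Finset.mem_range] at hj
    exact aeval_KK h3 A B d th ts hT j _ (hw1 h (by omega) j (by omega) (by omega)) _
  rw [Finset.sum_comm' (t' := Finset.range (d / 2 + 1))
    (s' := fun l => Finset.Icc l (min m (d - l)))] at e2
  · rw [e2]
    refine Finset.sum_congr rfl fun l hl => ?_
    rw [Finset.sum_comm]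
    refine Finset.sum_congr rfl fun r hr => ?_
    rw [map_sum]
    refine Finset.sum_congr rfl fun h hh => ?_
    rw [map_smul]
  · intro x y
    simp only [Finset.mem_Icc, Finset.mem_range]
    omega

/-- Newton interpolation with values in a vector space -/
theorem newton {H : Type} [AddCommGroup H] [Module K H] (th : ℕ → K) (l : ℕ) (g : ℕ → H) (N : ℕ)
    (hinj : ∀ i j, i ≤ l + N → j ≤ l + N → th i = th j → i = j) :
    ∃ w : ℕ → H, ∀ r ∈ Finset.Icc l (l + N),
      g r = ∑ i ∈ Finset.Icc l (l + N), (tp th l i).eval (th r) • w i := by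
  induction N with
  | zero =>
    refine ⟨fun _ => g l, fun r hr => ?_⟩
    have : r = l := by
      rw [Finset.mem_Icc] at hr; omega
    subst this
    simp [tp_self]
  | succ N ih =>
    obtain ⟨w, hw⟩ := ih (fun i j hi hj => hinj i j (by omega) (by omega))
    set c : K := (tp th l (l + N + 1)).eval (th (l + N + 1)) with hc
    have hc0 : c ≠ 0 := by
      refine tp_eval_ne th l (l + N + 1) (l + N + 1) fun s hs1 hs2 he => ?_
      have := hinj (l + N + 1) s (by omega) (by omega) he
      omega
    set q : H := c⁻¹ • (g (l + N + 1) -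
      ∑ i ∈ Finset.Icc l (l + N), (tp th l i).eval (th (l + N + 1)) • w i) with hq
    refine ⟨fun i => if i = l + N + 1 then q else w i, fun r hr => ?_⟩
    have hsplit : Finset.Icc l (l + (N + 1)) = insert (l + N + 1) (Finset.Icc l (l + N)) := by
      ext x
      simp only [Finset.mem_Icc, Finset.mem_insert]
      omega
    have hnot : l + N + 1 ∉ Finset.Icc l (l + N) := by
      simp
    rw [hsplit, Finset.sum_insert hnot]
    have hs : ∑ x ∈ Finset.Icc l (l + N), eval (th r) (tp th l x) •
        (if x = l + N + 1 then q else w x) =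
        ∑ x ∈ Finset.Icc l (l + N), eval (th r) (tp th l x) • w x := by
      refine Finset.sum_congr rfl fun x hx => ?_
      rw [if_neg]
      rintro rfl
      exact hnot hx
    rw [hs]
    simp only [if_true]
    rw [hsplit, Finset.mem_insert] at hr
    rcases hr with rfl | hr
    · rw [← hc, hq, smul_smul, mul_inv_cancel₀ hc0, one_smul]
      abel
    · have hr' := hr
      rw [Finset.mem_Icc] at hr'
      rw [tp_eval_zero th l (l + N + 1) r hr'.1 (by omega), zero_smul, zero_add]
      exact hw r hr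

end DECV

open DECV in
theorem t_DECV (h1 : S_DEC) (h2 : S_SPLIT) (h3 : S_PROJ) : S_DECV := by
  intro K V _ _ _ _ A B d th ts hT
  obtain ⟨S1, S2, S3, S4, S5⟩ := h2 K V A B d th ts hT
  obtain ⟨D1, D2⟩ := h1 K V A B d th ts hT
  refine ⟨fun v => ?_, fun g hg hsum l r hl hr => ?_⟩
  · have hv : v ∈ ES B ts (Finset.Icc 0 d) := by
      have : Finset.Icc 0 d = Finset.range (d + 1) := by
        ext x; simp
      rw [this, hT.topB]
      exact Submodule.mem_top
    obtain ⟨w, hw1, hw2⟩ := decomp h1 h2 h3 A B d th ts hT d le_rfl v hv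
    refine ⟨fun l r => if 2 * l ≤ d then
      ∑ h ∈ Finset.Icc l (min d (d - l)), (tp th l h).eval (th r) • w h l else 0, ?_, ?_⟩
    · intro l r hl
      simp only [hl, if_true]
      refine Submodule.sum_mem _ fun h hh => Submodule.smul_mem _ _ ?_
      rw [Finset.mem_Icc] at hh
      exact hw1 h l (by omega) (by omega) (by omega)
    · rw [hw2]
      refine Finset.sum_congr rfl fun l hl => Finset.sum_congr rfl fun r hr => ?_
      rw [Finset.mem_range] at hl
      have : 2 * l ≤ d := by omega
      simp only [this, if_true]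
  · -- uniqueness
    have key : ∀ l, 2 * l ≤ d → ∃ w : ℕ → V, (∀ i, w i ∈ KK A B d th ts l) ∧
        ∀ r ∈ Finset.Icc l (d - l),
          g l r = ∑ i ∈ Finset.Icc l (d - l), (tp th l i).eval (th r) • w i := by
      intro l hl
      obtain ⟨w, hw⟩ := newton (H := KK A B d th ts l) th l (fun r => ⟨g l r, hg l r hl⟩)
        (d - 2 * l) (fun i j hi hj => hT.injA i j (by omega) (by omega))
      have e : l + (d - 2 * l) = d - l := by omega
      rw [e] at hw
      refine ⟨fun i => (w i : V), fun i => (w i).2, fun r hr => ?_⟩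
      have := congrArg (fun x : KK A B d th ts l => (x : V)) (hw r hr)
      simpa using this
    choose! w hw1 hw2 using key
    have e1 : ∑ i ∈ Finset.range (d + 1), ∑ l ∈ Finset.range (min i (d - i) + 1),
        tau A th l i (w l i) = 0 := by
      rw [← hsum]
      rw [Finset.sum_comm' (t' := Finset.range (d / 2 + 1))
        (s' := fun l => Finset.Icc l (d - l))]
      · refine Finset.sum_congr rfl fun l hl => ?_
        rw [Finset.mem_range] at hl
        have hl2 : 2 * l ≤ d := by omega
        have : ∀ i ∈ Finset.Icc l (d - l), tau A th l i (w l i) =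
            ∑ r ∈ Finset.Icc l (d - l), (tp th l i).eval (th r) • pr A d th r (w l i) :=
          fun i _ => aeval_KK h3 A B d th ts hT l _ (hw1 l hl2 i) _
        rw [Finset.sum_congr rfl this, Finset.sum_comm]
        refine Finset.sum_congr rfl fun r hr => ?_
        rw [hw2 l hl2 r hr, map_sum]
        refine Finset.sum_congr rfl fun i _ => ?_
        rw [map_smul]
      · intro x y
        simp only [Finset.mem_Icc, Finset.mem_range]
        omega
    have e2 := S3 (fun i => ∑ l ∈ Finset.range (min i (d - i) + 1), tau A th l i (w l i))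
      (fun i hi => by
        refine Submodule.sum_mem _ fun l hl => ?_
        rw [Finset.mem_range] at hl
        exact tau_UU h2 A B d th ts hT l _ (KK_le_UU A B d th ts l (hw1 l (by omega) i)) i hi
          (by omega)) e1
    rw [hw2 l hl r hr]
    refine Finset.sum_eq_zero fun i hi => ?_
    rw [Finset.mem_Icc] at hi
    have := D2 i (by omega) (fun l => w l i) (fun j hj1 hj2 => hw1 j (by omega) i)
      (e2 i (by omega)) l (by omega) (by omega)
    rw [this, smul_zero]

end Pool.Agent.R639.TD
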