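import Pool.Agent.R639.TD.Defs

/-!
# MP_770f2c_al, pieces DVEC and DNZ
-/

set_option autoImplicit false

namespace Pool.Agent.R639.TD

open Module Polynomial

theorem t_DVEC : S_DVEC := by
  intro K _ H _ _ I J Z z h
  by_cases h0 : ∃ r0 ∈ I, ∃ s0 ∈ J, Z r0 s0 ≠ 0
  · obtain ⟨r0, hr0, s0, hs0, hne⟩ := h0
    refine ⟨(Z r0 s0)⁻¹ • z r0 s0, fun r hr s hs => ?_⟩
    rw [← sub_eq_zero, ← Module.forall_dual_apply_eq_zero_iff K]
    intro f
    obtain ⟨c, hc⟩ := h f
    rw [map_sub, map_smul, map_smul, hc r hr s hs, hc r0 hr0 s0 hs0, smul_eq_mul, smul_eq_mul]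
    field_simp
    ring
  · push Not at h0
    refine ⟨0, fun r hr s hs => ?_⟩
    rw [smul_zero, ← Module.forall_dual_apply_eq_zero_iff K]
    intro f
    obtain ⟨c, hc⟩ := h f
    rw [hc r hr s hs, h0 r hr s hs, zero_mul]

namespace PDNZ

variable {K : Type} [Field K]

theorem om_ne {th : ℕ → K} {d : ℕ} (hinj : ∀ i j, i ≤ d → j ≤ d → th i = th j → i = j)
    {j r : ℕ} (hr : r ∈ Finset.Icc j (d - j)) : om th d j r ≠ 0 := by
  unfold om
  rw [Finset.prod_ne_zero_iff]
  intro h hh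
  rw [Finset.mem_erase, Finset.mem_Icc] at hh
  rw [Finset.mem_Icc] at hr
  rw [sub_ne_zero]
  intro he
  exact hh.1 (hinj r h (by omega) (by omega) he).symm

end PDNZ

theorem t_DNZ : S_DNZ := by
  intro K _ th d hinj
  refine ⟨?_, ?_, fun j r hr => PDNZ.om_ne hinj hr⟩
  · intro j hj
    unfold Z1
    refine div_ne_zero ?_ (PDNZ.om_ne hinj (by rw [Finset.mem_Icc]; omega))
    unfold cP
    rw [if_pos (by omega), Finset.prod_ne_zero_iff]
    intro t ht
    rw [Finset.mem_erase, Finset.mem_Icc] at ht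
    apply inv_ne_zero
    rw [sub_ne_zero]
    intro he
    exact ht.1 (hinj j t (by omega) (by omega) he).symm
  · intro j hj
    unfold Z0
    refine div_ne_zero ?_ (PDNZ.om_ne hinj (by rw [Finset.mem_Icc]; omega))
    unfold c0
    rw [if_neg (by omega), if_pos rfl]
    unfold uu
    rw [if_pos rfl, sub_zero]
    apply div_ne_zero one_ne_zero
    rw [sub_ne_zero]
    intro he
    have := hinj (j + 1) j (by omega) (by omega) he
    omega

end Pool.Agent.R639.TD
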