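import Pool.Agent.R639.TD.Defs

/-! Piece DZ of project TD (helper91). -/

set_option autoImplicit false

namespace Pool.Agent.R639.TD

open Module Polynomial

namespace DZ

variable {K : Type} [Field K]

/-- Vandermonde -/
lemma vdm (I : Finset ℕ) (th w : ℕ → K) (hinj : ∀ i ∈ I, ∀ j ∈ I, th i = th j → i = j)
    (h : ∀ e < I.card, ∑ r ∈ I, th r ^ e * w r = 0) : ∀ r ∈ I, w r = 0 := by
  classical
  intro r hr
  set p : K[X] := ∏ t ∈ I.erase r, (X - C (th t)) with hp
  have hdeg : p.natDegree < I.card := by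
    rw [hp, Polynomial.natDegree_prod_of_monic _ _ fun t _ => Polynomial.monic_X_sub_C _]
    simp only [Polynomial.natDegree_X_sub_C, Finset.sum_const, smul_eq_mul, mul_one,
      Finset.card_erase_of_mem hr]
    have := Finset.card_pos.2 ⟨r, hr⟩
    omega
  have h1 : ∑ t ∈ I, p.eval (th t) * w t = 0 := by
    have h2 : ∀ t ∈ I, p.eval (th t) * w t = ∑ e ∈ Finset.range I.card, p.coeff e * (th t ^ e * w t) := by
      intro t _
      rw [Polynomial.eval_eq_sum_range' hdeg, Finset.sum_mul]
      exact Finset.sum_congr rfl fun e _ => by ring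
    rw [Finset.sum_congr rfl h2, Finset.sum_comm]
    refine Finset.sum_eq_zero fun e he => ?_
    rw [← Finset.mul_sum, h e (Finset.mem_range.1 he), mul_zero]
  rw [Finset.sum_eq_single r] at h1
  · rcases mul_eq_zero.1 h1 with h2 | h2
    · exfalso
      rw [hp, Polynomial.eval_prod, Finset.prod_eq_zero_iff] at h2
      obtain ⟨t, ht, h3⟩ := h2
      rw [Polynomial.eval_sub, Polynomial.eval_X, Polynomial.eval_C, sub_eq_zero] at h3
      exact (Finset.ne_of_mem_erase ht) (hinj r hr t (Finset.mem_of_mem_erase ht) h3).symm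
    · exact h2
  · intro t ht htr
    have : p.eval (th t) = 0 := by
      rw [hp, Polynomial.eval_prod, Finset.prod_eq_zero_iff]
      exact ⟨t, Finset.mem_erase.2 ⟨htr, ht⟩, by simp⟩
    rw [this, zero_mul]
  · intro h; exact absurd hr h

lemma caseA (th : ℕ → K) (d : ℕ) (hinj : ∀ i j, i ≤ d → j ≤ d → th i = th j → i = j) (l j : ℕ)
    (hl : 2 * l ≤ d) (hlj : j + 2 ≤ l) (z : ℕ → ℕ → K) (hz : Deg th d l j z) :
    ∀ r ∈ Finset.Icc l (d - l), ∀ s ∈ Finset.Icc j (d - j), z r s = 0 := by
  classical
  obtain ⟨hsup, hdeg⟩ := hz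
  have hM : ∀ n, n ≤ 2 → ∀ r ∈ Finset.Icc l (d - l), ∑ s ∈ Finset.Icc j (d - j), th s ^ n * z r s = 0 := by
    intro n hn
    apply vdm (Finset.Icc l (d - l)) th
    · intro i hi k hk h
      rw [Finset.mem_Icc] at hi hk
      exact hinj i k (by omega) (by omega) h
    · intro e he
      rw [Nat.card_Icc] at he
      rw [← hdeg e n (by omega)]
      refine Finset.sum_congr rfl fun r _ => ?_
      rw [Finset.mul_sum]
      refine Finset.sum_congr rfl fun s _ => ?_
      rw [smul_eq_mul]; ring
  intro r hr s hs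
  by_cases hrs : r + 1 < s ∨ s + 1 < r
  · exact hsup r s hrs
  set I := (Finset.Icc j (d - j)).filter fun s => ¬ (r + 1 < s ∨ s + 1 < r) with hI
  have hcard : I.card ≤ 3 := by
    have h1 : I ⊆ Finset.Icc (r - 1) (r + 1) := by
      intro t ht
      have := (Finset.mem_filter.1 ht).2
      rw [Finset.mem_Icc]
      omega
    refine (Finset.card_le_card h1).trans ?_
    rw [Nat.card_Icc]
    omega
  apply vdm I th (z r) _ _ s (Finset.mem_filter.2 ⟨hs, hrs⟩)
  · intro i hi k hk h
    have h1 := Finset.mem_Icc.1 (Finset.mem_filter.1 hi).1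
    have h2 := Finset.mem_Icc.1 (Finset.mem_filter.1 hk).1
    exact hinj i k (by omega) (by omega) h
  · intro e he
    rw [← hM e (by omega) r hr, hI, Finset.sum_filter]
    refine Finset.sum_congr rfl fun t _ => ?_
    split_ifs with h
    · rw [hsup r t h, mul_zero]
    · rfl

end DZ

open DZ in
theorem t_DZ : S_DZ := by
  intro K _ th d hinj l j hl hj hlj z hz r hr s hs
  rcases hlj with h | h | ⟨h1, h2⟩
  · have hz' : Deg th d j l (fun r s => z s r) := by
      refine ⟨fun r s h => hz.1 s r (by tauto), fun e n hen => ?_⟩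
      rw [Finset.sum_comm, ← hz.2 n e (by omega)]
      refine Finset.sum_congr rfl fun r _ => Finset.sum_congr rfl fun s _ => ?_
      rw [mul_comm]
    exact caseA th d hinj j l hj h (fun r s => z s r) hz' s hs r hr
  · exact caseA th d hinj l j hl h z hz r hr s hs
  · subst h1
    have h3 := hz.2 0 0 (by omega)
    have h4 : Finset.Icc l (d - l) = {l} := by
      rw [show d - l = l by omega, Finset.Icc_self]
    rw [h4] at h3 hr hs
    rw [Finset.mem_singleton] at hr hs
    subst hr
    subst hs
    simpa using h3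

end Pool.Agent.R639.TD
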