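import Pool.Agent.R639.TD.P_DECV

/-!
# Project TD, piece FILT
-/

namespace Pool.Agent.R639.TD

open Module Polynomial

namespace FILT

open DECV

variable {K V : Type} [Field K] [AddCommGroup V] [Module K V]

theorem ES_mono (A : Module.End K V) (th : ℕ → K) {S T : Finset ℕ} (h : S ⊆ T) :
    ES A th S ≤ ES A th T := by
  unfold ES
  exact iSup₂_le fun i hi => le_iSup₂_of_le i (h hi) le_rfl

theorem A_raise (A B : Module.End K V) (d : ℕ) (th ts : ℕ → K)
    (hT : IsTD A B d th ts) (i : ℕ) (hi : i ≤ d + 1) (v : V)
    (hv : v ∈ ES B ts (Finset.range i)) : A v ∈ ES B ts (Finset.range (i + 1)) := by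
  have : ES B ts (Finset.range i) ≤ (ES B ts (Finset.range (i + 1))).comap A := by
    unfold ES
    refine iSup₂_le fun j hj => ?_
    intro x hx
    rw [Finset.mem_range] at hj
    have h1 := hT.triA j (by omega) x hx
    rw [Submodule.mem_comap]
    refine ES_mono B ts ?_ h1
    intro y hy
    simp only [nb, Finset.mem_filter, Finset.mem_range] at hy ⊢
    omega
  exact this hv

theorem A_pow (A B : Module.End K V) (d : ℕ) (th ts : ℕ → K)
    (hT : IsTD A B d th ts) (i n : ℕ) (hi : i + n ≤ d + 1) (v : V)
    (hv : v ∈ ES B ts (Finset.range i)) : aeval A (X ^ n : K[X]) v ∈ ES B ts (Finset.range (i + n)) := by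
  induction n with
  | zero => simpa using hv
  | succ n ih =>
    have := A_raise A B d th ts hT (i + n) (by omega) _ (ih (by omega))
    rw [pow_succ', map_mul, aeval_X, Module.End.mul_apply]
    exact this

theorem tp_degree (th : ℕ → K) (i j : ℕ) : (tp th i j).natDegree = j - i := by
  rw [tp, natDegree_prod_of_monic _ _ (fun h _ => monic_X_sub_C _)]
  simp

end FILT

open DECV FILT in
theorem t_FILT (h1 : S_DECV) (h2 : S_DEC) (h3 : S_SPLIT) (h4 : S_PROJ) (h5 : S_ORTH) :
    S_FILT := by
  intro K V _ _ _ _ A B d th ts hT g hg i hi
  obtain ⟨S1, S2, S3, S4, S5⟩ := h3 K V A B d th ts hT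
  obtain ⟨D1, D2⟩ := h2 K V A B d th ts hT
  obtain ⟨E1, E2⟩ := h1 K V A B d th ts hT
  constructor
  · intro hv l hl
    rcases Nat.eq_zero_or_pos i with rfl | hipos
    · have hv0 : (∑ l ∈ Finset.range (d / 2 + 1), ∑ r ∈ Finset.Icc l (d - l),
          pr A d th r (g l r)) = 0 := by
        simpa [ES] using hv
      intro e he
      refine Finset.sum_eq_zero fun r hr => ?_
      rw [E2 g hg hv0 l r hl hr, smul_zero]
    · have hr : Finset.range i = Finset.Icc 0 (i - 1) := by
        ext x; simp only [Finset.mem_range, Finset.mem_Icc]; omega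
      rw [hr] at hv
      obtain ⟨w, hw1, hw2⟩ := decomp h2 h3 h4 A B d th ts hT (i - 1) (by omega) _ hv
      -- compare
      have hgg : ∀ r ∈ Finset.Icc l (d - l), g l r =
          ∑ h ∈ Finset.Icc l (min (i - 1) (d - l)), (tp th l h).eval (th r) • w h l := by
        intro r hr
        have := E2 (fun l r => if 2 * l ≤ d then g l r -
          ∑ h ∈ Finset.Icc l (min (i - 1) (d - l)), (tp th l h).eval (th r) • w h l else 0)
          (fun l r hl => by
            simp only [hl, if_true]
            refine Submodule.sub_mem _ (hg l r hl) ?_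
            refine Submodule.sum_mem _ fun h hh => Submodule.smul_mem _ _ ?_
            rw [Finset.mem_Icc] at hh
            exact hw1 h l (by omega) (by omega) (by omega))
          (by
            have e : ∀ l ∈ Finset.range (d / 2 + 1), (∑ r ∈ Finset.Icc l (d - l),
                pr A d th r (if 2 * l ≤ d then g l r -
                  ∑ h ∈ Finset.Icc l (min (i - 1) (d - l)), (tp th l h).eval (th r) • w h l
                  else 0)) = ∑ r ∈ Finset.Icc l (d - l), pr A d th r (g l r) -
                ∑ r ∈ Finset.Icc l (d - l), pr A d th r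
                  (∑ h ∈ Finset.Icc l (min (i - 1) (d - l)),
                    (tp th l h).eval (th r) • w h l) := by
              intro l hl
              rw [Finset.mem_range] at hl
              have : 2 * l ≤ d := by omega
              simp only [this, if_true]
              rw [← Finset.sum_sub_distrib]
              refine Finset.sum_congr rfl fun r _ => ?_
              rw [map_sub]
            rw [Finset.sum_congr rfl e, Finset.sum_sub_distrib, ← hw2, sub_self]) l r hl hr
        simp only [hl, if_true] at this
        exact sub_eq_zero.mp this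
      -- ORTH
      have hK : ∀ h, h ∈ Finset.Icc l (min (i - 1) (d - l)) → w h l ∈ KK A B d th ts l := by
        intro h hh
        rw [Finset.mem_Icc] at hh
        exact hw1 h l (by omega) (by omega) (by omega)
      have := (h5 K V th d hT.injA l i hl (g l)).mpr
        ⟨fun n => ∑ h ∈ Finset.Icc l (min (i - 1) (d - l)), (tp th l h).coeff n • w h l, ?_⟩
      · exact this
      · intro r hr
        rw [hgg r hr]
        simp only [Finset.smul_sum]
        rw [Finset.sum_comm]
        refine Finset.sum_congr rfl fun h hh => ?_
        rw [Finset.mem_Icc] at hh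
        rw [eval_eq_sum_range' (n := min (i - l) (d - 2 * l + 1)) (by
          rw [tp_degree]
          omega), Finset.sum_smul]
        refine Finset.sum_congr rfl fun n _ => ?_
        rw [smul_smul, mul_comm]
  · intro hO
    refine Submodule.sum_mem _ fun l hl => ?_
    rw [Finset.mem_range] at hl
    have hl2 : 2 * l ≤ d := by omega
    obtain ⟨w, hw⟩ := (h5 K (KK A B d th ts l) th d hT.injA l i hl2
      (fun r => ⟨g l r, hg l r hl2⟩)).mp (by
        intro e he
        have := hO l hl2 e he
        apply Subtype.ext
        simpa using this)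
    have e1 : ∑ r ∈ Finset.Icc l (d - l), pr A d th r (g l r) =
        ∑ n ∈ Finset.range (min (i - l) (d - 2 * l + 1)), aeval A (X ^ n : K[X]) (w n : V) := by
      have : ∀ n ∈ Finset.range (min (i - l) (d - 2 * l + 1)),
          aeval A (X ^ n : K[X]) (w n : V) =
          ∑ r ∈ Finset.Icc l (d - l), (X ^ n : K[X]).eval (th r) • pr A d th r (w n) :=
        fun n _ => aeval_KK h4 A B d th ts hT l _ (w n).2 _
      rw [Finset.sum_congr rfl this, Finset.sum_comm]
      refine Finset.sum_congr rfl fun r hr => ?_
      have h6 := congrArg (fun x : KK A B d th ts l => (x : V)) (hw r hr)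
      simp only [AddSubmonoidClass.coe_finsetSum, Submodule.coe_smul] at h6
      rw [h6, map_sum]
      refine Finset.sum_congr rfl fun n _ => ?_
      rw [map_smul, eval_pow, eval_X]
    rw [e1]
    refine Submodule.sum_mem _ fun n hn => ?_
    rw [Finset.mem_range] at hn
    have h7 : (w n : V) ∈ ES B ts (Finset.range (l + 1)) := by
      have := (Submodule.mem_inf.mp (w n).2).1
      refine ES_mono B ts ?_ this
      intro x hx
      rw [Finset.mem_Icc] at hx
      rw [Finset.mem_range]
      omega
    have h8 := A_pow A B d th ts hT (l + 1) n (by omega) _ h7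
    refine ES_mono B ts ?_ h8
    intro x hx
    rw [Finset.mem_range] at hx ⊢
    omega

end Pool.Agent.R639.TD
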