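import Pool.Agent.R639.TD.Defs

/-! Project TD, piece ORTH. -/

namespace Pool.Agent.R639.TD

open Module Polynomial

namespace ORTH

variable {K : Type} [Field K]

lemma injOn {th : ℕ → K} {d l : ℕ} (hinj : ∀ i j, i ≤ d → j ≤ d → th i = th j → i = j) :
    Set.InjOn th (Finset.Icc l (d - l) : Finset ℕ) := by
  intro a ha b hb hab
  rw [Finset.mem_coe, Finset.mem_Icc] at ha hb
  exact hinj a b (by omega) (by omega) hab

lemma card_grid {d l : ℕ} (hl : 2 * l ≤ d) : (Finset.Icc l (d - l)).card = d - 2 * l + 1 := by
  rw [Nat.card_Icc]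
  omega

lemma pair {th : ℕ → K} {d l : ℕ} (hinj : ∀ i j, i ≤ d → j ≤ d → th i = th j → i = j)
    (hl : 2 * l ≤ d) {m : ℕ} (hm : m ≤ d - 2 * l) :
    ∑ r ∈ Finset.Icc l (d - l), th r ^ m / om th d l r = if m = d - 2 * l then 1 else 0 := by
  have h := Lagrange.coeff_eq_sum (s := Finset.Icc l (d - l)) (v := th) (injOn hinj)
    (P := (X : K[X]) ^ m) (by
      rw [degree_X_pow, card_grid hl]
      exact_mod_cast Nat.lt_succ_of_le hm)
  rw [card_grid hl, Nat.add_sub_cancel, coeff_X_pow] at h
  simp only [eval_pow, eval_X] at h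
  rw [show (if m = d - 2 * l then (1 : K) else 0) = if d - 2 * l = m then 1 else 0 by
    simp only [eq_comm]]
  rw [h]
  rfl

/-- pairing of a polynomial function -/
lemma pairing {H : Type} [AddCommGroup H] [Module K H] {th : ℕ → K} {d l : ℕ}
    (hinj : ∀ i j, i ≤ d → j ≤ d → th i = th j → i = j) (hl : 2 * l ≤ d) (w : ℕ → H) (e M : ℕ)
    (hM : e + M ≤ d - 2 * l + 1) :
    ∑ r ∈ Finset.Icc l (d - l), (th r ^ e / om th d l r) •
      (∑ n ∈ Finset.range M, th r ^ n • w n) =
    ∑ n ∈ Finset.range M, (if e + n = d - 2 * l then (1 : K) else 0) • w n := by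
  simp only [Finset.smul_sum]
  rw [Finset.sum_comm]
  apply Finset.sum_congr rfl
  intro n hn
  rw [Finset.mem_range] at hn
  rw [← pair hinj hl (m := e + n) (by omega), Finset.sum_smul]
  apply Finset.sum_congr rfl
  intro r _
  rw [smul_smul]
  congr 1
  rw [pow_add]
  ring

/-- interpolation -/
lemma interp {H : Type} [AddCommGroup H] [Module K H] {th : ℕ → K} {d l : ℕ}
    (hinj : ∀ i j, i ≤ d → j ≤ d → th i = th j → i = j) (hl : 2 * l ≤ d) (g : ℕ → H) :
    ∃ w : ℕ → H, ∀ r ∈ Finset.Icc l (d - l),
      g r = ∑ n ∈ Finset.range (d - 2 * l + 1), th r ^ n • w n := by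
  classical
  refine ⟨fun n => ∑ s ∈ Finset.Icc l (d - l),
    (Lagrange.basis (Finset.Icc l (d - l)) th s).coeff n • g s, ?_⟩
  intro r hr
  simp only [Finset.smul_sum, smul_smul]
  rw [Finset.sum_comm]
  have h1 : ∀ s ∈ Finset.Icc l (d - l), ∑ n ∈ Finset.range (d - 2 * l + 1),
      (th r ^ n * (Lagrange.basis (Finset.Icc l (d - l)) th s).coeff n) • g s =
      (if s = r then (1 : K) else 0) • g s := by
    intro s hs
    rw [← Finset.sum_smul]
    congr 1
    have hdeg := Lagrange.natDegree_basis (v := th) (injOn hinj) hs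
    rw [card_grid hl, Nat.add_sub_cancel] at hdeg
    have hev : (Lagrange.basis (Finset.Icc l (d - l)) th s).eval (th r) =
        ∑ n ∈ Finset.range (d - 2 * l + 1),
          (Lagrange.basis (Finset.Icc l (d - l)) th s).coeff n * th r ^ n := by
      rw [eval_eq_sum_range' (n := d - 2 * l + 1) (by omega)]
    have hcomm : ∑ n ∈ Finset.range (d - 2 * l + 1),
        th r ^ n * (Lagrange.basis (Finset.Icc l (d - l)) th s).coeff n =
        (Lagrange.basis (Finset.Icc l (d - l)) th s).eval (th r) := by
      rw [hev]
      exact Finset.sum_congr rfl fun n _ => mul_comm _ _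
    rw [hcomm]
    by_cases hsr : s = r
    · subst hsr
      rw [if_pos rfl, Lagrange.eval_basis_self (injOn hinj) hs]
    · rw [if_neg hsr, Lagrange.eval_basis_of_ne hsr hr]
  rw [Finset.sum_congr rfl h1]
  simp only [ite_smul, one_smul, zero_smul]
  rw [Finset.sum_ite_eq' (Finset.Icc l (d - l)) r (fun s => g s), if_pos hr]

end ORTH

theorem t_ORTH : S_ORTH := by
  intro K _ H _ _ th d hinj l i hl g
  constructor
  · intro hcond
    obtain ⟨w, hw⟩ := ORTH.interp hinj hl g
    have hzero : ∀ k n, n + k = d - 2 * l → i - l ≤ n → w n = 0 := by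
      intro k
      induction k using Nat.strong_induction_on with
      | _ k ih =>
        intro n hnk hn
        have h1 := hcond (d - 2 * l - n) (by omega)
        have h2 : ∑ r ∈ Finset.Icc l (d - l), (th r ^ (d - 2 * l - n) / om th d l r) • g r =
            ∑ r ∈ Finset.Icc l (d - l), (th r ^ (d - 2 * l - n) / om th d l r) •
              (∑ m ∈ Finset.range (n + 1), th r ^ m • w m) := by
          apply Finset.sum_congr rfl
          intro r hr
          rw [hw r hr]
          congr 1
          symm
          apply Finset.sum_subset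
          · intro m hm
            rw [Finset.mem_range] at hm ⊢
            omega
          · intro m hm hm'
            rw [Finset.mem_range] at hm hm'
            rw [ih (d - 2 * l - m) (by omega) m (by omega) (by omega), smul_zero]
        rw [h2, ORTH.pairing hinj hl w (d - 2 * l - n) (n + 1) (by omega),
          Finset.sum_range_succ, if_pos (by omega), one_smul] at h1
        have h3 : ∑ m ∈ Finset.range n,
            (if d - 2 * l - n + m = d - 2 * l then (1 : K) else 0) • w m = 0 := by
          apply Finset.sum_eq_zero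
          intro m hm
          rw [Finset.mem_range] at hm
          rw [if_neg (by omega), zero_smul]
        rw [h3, zero_add] at h1
        exact h1
    refine ⟨w, fun r hr => ?_⟩
    rw [hw r hr]
    symm
    apply Finset.sum_subset
    · intro m hm
      rw [Finset.mem_range] at hm ⊢
      omega
    · intro m hm hm'
      rw [Finset.mem_range] at hm hm'
      rw [hzero (d - 2 * l - m) m (by omega) (by omega), smul_zero]
  · rintro ⟨w, hw⟩ e he
    have h2 : ∑ r ∈ Finset.Icc l (d - l), (th r ^ e / om th d l r) • g r =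
        ∑ r ∈ Finset.Icc l (d - l), (th r ^ e / om th d l r) •
          (∑ n ∈ Finset.range (min (i - l) (d - 2 * l + 1)), th r ^ n • w n) := by
      apply Finset.sum_congr rfl
      intro r hr
      rw [hw r hr]
    rcases Nat.eq_zero_or_pos (i - l) with h0 | h0
    · rw [h2, h0]
      simp
    · rw [h2, ORTH.pairing hinj hl w e _ (by omega)]
      apply Finset.sum_eq_zero
      intro n hn
      rw [Finset.mem_range] at hn
      rw [if_neg (by omega), zero_smul]

end Pool.Agent.R639.TD
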