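import Pool.Agent.R639.TD.Defs

/-! # Project TD: PROJ (projections onto the eigenspaces) -/

namespace Pool.Agent.R639.TD

open Module Polynomial

namespace PROJ

section

variable {K V : Type} [Field K] [AddCommGroup V] [Module K V] {A B : Module.End K V} {d : ℕ}
  {th ts : ℕ → K}

theorem evalE (A : Module.End K V) (p : K[X]) (μ : K) (v : V) (hv : v ∈ A.eigenspace μ) :
    aeval A p v = p.eval μ • v := by
  by_cases h0 : v = 0
  · rw [h0, map_zero, smul_zero]
  · exact Module.End.aeval_apply_of_hasEigenvector ⟨hv, h0⟩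

theorem inj (h : IsTD A B d th ts) : Set.InjOn th (Finset.range (d + 1) : Finset ℕ) := by
  intro i hi j hj e
  rw [Finset.mem_coe, Finset.mem_range] at hi hj
  exact h.injA i j (by omega) (by omega) e

theorem pr_self (h : IsTD A B d th ts) {s : ℕ} (hs : s ≤ d) {v : V} (hv : v ∈ A.eigenspace (th s)) :
    pr A d th s v = v := by
  unfold pr
  rw [evalE A _ _ v hv, Lagrange.eval_basis_self (inj h) (Finset.mem_range.2 (by omega)), one_smul]

theorem pr_ne {s t : ℕ} (ht : t ≤ d) (hst : s ≠ t) {v : V} (hv : v ∈ A.eigenspace (th t)) :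
    pr A d th s v = 0 := by
  unfold pr
  rw [evalE A _ _ v hv, Lagrange.eval_basis_of_ne hst (Finset.mem_range.2 (by omega)), zero_smul]

theorem pr_mem (h : IsTD A B d th ts) {s : ℕ} (hs : s ≤ d) (v : V) :
    pr A d th s v ∈ A.eigenspace (th s) := by
  have h1 : (⊤ : Submodule K V) ≤ (A.eigenspace (th s)).comap (pr A d th s) := by
    rw [← h.topA]
    unfold ES
    refine iSup₂_le fun t ht => ?_
    intro w hw
    rw [Submodule.mem_comap]
    by_cases hst : s = t
    · subst hst
      rw [pr_self h hs hw]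
      exact hw
    · rw [pr_ne (by have := Finset.mem_range.1 ht; omega) hst hw]
      exact Submodule.zero_mem _
  exact h1 Submodule.mem_top

theorem pr_sum (h : IsTD A B d th ts) (v : V) :
    ∑ s ∈ Finset.range (d + 1), pr A d th s v = v := by
  have h1 := Lagrange.sum_basis (inj h) ⟨0, Finset.mem_range.2 (by omega)⟩
  have h2 := congrArg (fun p => aeval A p v) h1
  simp only [map_sum, map_one, LinearMap.sum_apply, Module.End.one_apply] at h2
  exact h2

theorem le_es {S : Finset ℕ} {s : ℕ} (hs : s ∈ S) : A.eigenspace (th s) ≤ ES A th S := by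
  unfold ES
  exact le_iSup₂_of_le s hs le_rfl

theorem mem_es (h : IsTD A B d th ts) {S : Finset ℕ} (hS : S ⊆ Finset.range (d + 1)) (v : V) :
    v ∈ ES A th S ↔ ∀ s, s ≤ d → s ∉ S → pr A d th s v = 0 := by
  constructor
  · intro hv s hs hsS
    have h1 : ES A th S ≤ LinearMap.ker (pr A d th s) := by
      unfold ES
      refine iSup₂_le fun t ht => ?_
      intro w hw
      rw [LinearMap.mem_ker]
      have := Finset.mem_range.1 (hS ht)
      exact pr_ne (by omega) (fun e => hsS (by rw [e]; exact ht)) hw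
    exact LinearMap.mem_ker.1 (h1 hv)
  · intro hv
    rw [← pr_sum h v]
    refine Submodule.sum_mem _ fun s hs => ?_
    have hs' : s ≤ d := by have := Finset.mem_range.1 hs; omega
    by_cases hsS : s ∈ S
    · exact le_es hsS (pr_mem h hs' v)
    · rw [hv s hs' hsS]
      exact Submodule.zero_mem _

theorem aeval_eq (h : IsTD A B d th ts) (p : K[X]) (v : V) :
    aeval A p v = ∑ s ∈ Finset.range (d + 1), p.eval (th s) • pr A d th s v := by
  conv_lhs => rw [← pr_sum h v]
  rw [map_sum]
  refine Finset.sum_congr rfl fun s hs => ?_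
  have hs' : s ≤ d := by have := Finset.mem_range.1 hs; omega
  exact evalE A p _ _ (pr_mem h hs' v)

theorem pr_aeval (h : IsTD A B d th ts) {s : ℕ} (hs : s ≤ d) (p : K[X]) (v : V) :
    pr A d th s (aeval A p v) = p.eval (th s) • pr A d th s v := by
  rw [aeval_eq h, map_sum, Finset.sum_eq_single s]
  · rw [map_smul, pr_self h hs (pr_mem h hs v)]
  · intro t ht hts
    have ht' : t ≤ d := by have := Finset.mem_range.1 ht; omega
    rw [map_smul, pr_ne ht' hts.symm (pr_mem h ht' v), smul_zero]
  · intro hs'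
    exact absurd (Finset.mem_range.2 (by omega)) hs'

end

end PROJ

theorem t_PROJ : S_PROJ := by
  intro K V _ _ _ A B d th ts h
  refine ⟨PROJ.pr_sum h, fun s hs v => PROJ.pr_mem h hs v, fun s hs v hv => PROJ.pr_self h hs hv,
    fun s t _ ht hst v hv => PROJ.pr_ne ht hst hv, fun S hS v => PROJ.mem_es h hS v,
    PROJ.aeval_eq h, ?_⟩
  intro i j v hj
  have hsub : Finset.Ico i j ⊆ Finset.range (d + 1) := by
    intro x hx
    have := Finset.mem_Ico.1 hx
    exact Finset.mem_range.2 (by omega)
  have hev : ∀ s, (∏ h ∈ Finset.Ico i j, (X - C (th h))).eval (th s) =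
      ∏ h ∈ Finset.Ico i j, (th s - th h) := by
    intro s
    rw [eval_prod]
    simp
  rw [PROJ.mem_es h hsub]
  constructor
  · intro h0 s hs hsS
    have h1 := PROJ.pr_aeval h hs (∏ h ∈ Finset.Ico i j, (X - C (th h))) v
    unfold tau at h0
    rw [h0, map_zero, hev] at h1
    have h2 : ∏ h ∈ Finset.Ico i j, (th s - th h) ≠ 0 := by
      rw [Finset.prod_ne_zero_iff]
      intro t ht e
      have ht' := Finset.mem_range.1 (hsub ht)
      have := h.injA s t hs (by omega) (sub_eq_zero.1 e)
      exact hsS (this ▸ ht)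
    exact (smul_eq_zero.1 h1.symm).resolve_left h2
  · intro h0
    unfold tau
    rw [PROJ.aeval_eq h]
    refine Finset.sum_eq_zero fun s hs => ?_
    have hs' : s ≤ d := by have := Finset.mem_range.1 hs; omega
    by_cases hsS : s ∈ Finset.Ico i j
    · rw [hev, Finset.prod_eq_zero hsS (sub_self _), zero_smul]
    · rw [h0 s hs' hsS, smul_zero]

end Pool.Agent.R639.TD
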