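import Pool.Agent.R639.TD.Defs

/-! # Project TD: REV (reversal bookkeeping) -/

namespace Pool.Agent.R639.TD

open Module Polynomial

namespace REV

theorem es_rev {K V : Type} [Field K] [AddCommGroup V] [Module K V] (A : Module.End K V) (d : ℕ)
    (th : ℕ → K) (S : Finset ℕ) :
    ES A (fun i => th (d - i)) S = ES A th (S.image fun i => d - i) := by
  unfold ES
  rw [Finset.iSup_finset_image]

theorem im_nb {d i : ℕ} (hi : i ≤ d) : (nb d i).image (fun i => d - i) = nb d (d - i) := by
  ext j
  simp only [nb, Finset.mem_image, Finset.mem_filter, Finset.mem_range]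
  constructor
  · rintro ⟨a, ⟨h1, h2, h3⟩, rfl⟩
    omega
  · intro h
    exact ⟨d - j, by omega, by omega⟩

theorem im_range (d : ℕ) : (Finset.range (d + 1)).image (fun i => d - i) = Finset.range (d + 1) := by
  ext j
  simp only [Finset.mem_image, Finset.mem_range]
  constructor
  · rintro ⟨a, h1, rfl⟩
    omega
  · intro h
    exact ⟨d - j, by omega, by omega⟩

end REV

theorem t_REV : S_REV := by
  intro K V _ _ _ A B d th ts h
  refine ⟨⟨?_, h.injB, ?_, h.neB, ?_, h.topB, h.triA, ?_, h.irr⟩, ?_⟩
  · intro i j hi hj e
    have := h.injA (d - i) (d - j) (by omega) (by omega) e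
    omega
  · intro i _
    exact h.neA (d - i) (by omega)
  · rw [REV.es_rev, REV.im_range]
    exact h.topA
  · intro i hi v hv
    rw [REV.es_rev, REV.im_nb hi]
    exact h.triB (d - i) (by omega) v hv
  · intro a b hab hb
    rw [REV.es_rev]
    congr 1
    ext j
    simp only [Finset.mem_image, Finset.mem_Icc]
    constructor
    · rintro ⟨c, h1, rfl⟩
      omega
    · intro h
      exact ⟨d - j, by omega, by omega⟩

end Pool.Agent.R639.TD
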